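import Pool.Agent.Work.MP_db9399_da.Parts

/-!
# MP_db9399, DENSE-ALL: cut condition of the parts, type B (helper73)
-/

set_option autoImplicit false

namespace Pool.Agent.Work.MP_db9399_da.helper73

open Finset Classical
open Pool.Agent.Work.MP_db9399_all (nb)
open Pool.Agent.Work.MP_db9399_da_helper72 (ee Stmt_PCUT)

universe u

namespace CPAux

variable {V : Type u} [Fintype V]

theorem nb_inter (G : SimpleGraph V) (v : V) (B : Finset V) :
    nb G v ∩ B = B.filter (fun w => G.Adj v w) := by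
  ext w; simp [nb, and_comm]

theorem ee_sum (G : SimpleGraph V) (A B : Finset V) :
    ee G A B = ∑ v ∈ A, (nb G v ∩ B).card := by
  unfold ee
  rw [card_filter, sum_product]
  refine sum_congr rfl fun v _ => ?_
  rw [nb_inter, card_filter]

/-- the number of edges of the target -/
noncomputable def tg (G : SimpleGraph V) (sd pt : V → Bool) (i : Bool) (S : Finset V) : ℕ :=
  ∑ v ∈ S, ((nb G v \ S) ∩ qtr sd pt (!(sd v)) i).card

theorem mem_prt (pt : V → Bool) (i : Bool) (v : V) : v ∈ prt pt i ↔ pt v = i := by simp [prt]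

theorem mem_qtr (sd pt : V → Bool) (β i : Bool) (v : V) :
    v ∈ qtr sd pt β i ↔ sd v = β ∧ pt v = i := by simp [qtr]

theorem tg_cell (G : SimpleGraph V) (sd pt : V → Bool) (i : Bool) (S : Finset V)
    (v : V) :
    (nb G v \ S) ∩ qtr sd pt (!(sd v)) i =
      (prt pt i \ S).filter (fun w => G.Adj v w ∧ sd w = !(sd v)) := by
  ext w
  simp only [mem_inter, mem_sdiff, mem_qtr, mem_filter, mem_prt, nb, mem_univ, true_and]
  tauto

theorem tg_eq (G : SimpleGraph V) (sd pt : V → Bool) (i : Bool) (S : Finset V) :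
    tg G sd pt i S =
      ee G (S.filter fun v => sd v = false) (qtr sd pt true i \ (S.filter fun v => sd v = true)) +
      ee G (S.filter fun v => sd v = true) (qtr sd pt false i \ (S.filter fun v => sd v = false)) := by
  unfold tg
  rw [← sum_filter_add_sum_filter_not S (fun v => sd v = false)]
  congr 1
  · rw [ee_sum]
    refine sum_congr rfl fun v hv => ?_
    have h1 : sd v = false := (mem_filter.1 hv).2
    rw [h1]
    congr 1
    ext w
    simp only [mem_inter, mem_sdiff, mem_qtr, mem_filter, nb, mem_univ, true_and, Bool.not_false]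
    tauto
  · have h2 : (S.filter fun v => ¬ sd v = false) = S.filter fun v => sd v = true := by
      ext w; simp
    rw [h2, ee_sum]
    refine sum_congr rfl fun v hv => ?_
    have h1 : sd v = true := (mem_filter.1 hv).2
    rw [h1]
    congr 1
    ext w
    simp only [mem_inter, mem_sdiff, mem_qtr, mem_filter, nb, mem_univ, true_and, Bool.not_true]
    tauto

theorem tg_swap (G : SimpleGraph V) (sd pt : V → Bool) (i : Bool) (S : Finset V) :
    tg G sd pt i S = ∑ w ∈ prt pt i \ S, (S.filter (fun v => G.Adj w v ∧ sd v = !(sd w))).card := by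
  unfold tg
  simp only [tg_cell, card_filter]
  rw [sum_comm]
  refine sum_congr rfl fun w _ => sum_congr rfl fun v _ => ?_
  have : (G.Adj v w ∧ sd w = !(sd v)) ↔ (G.Adj w v ∧ sd v = !(sd w)) := by
    constructor
    · rintro ⟨h1, h2⟩; exact ⟨h1.symm, by rw [h2]; simp⟩
    · rintro ⟨h1, h2⟩; exact ⟨h1.symm, by rw [h2]; simp⟩
  simp only [this]

theorem small1 (G : SimpleGraph V) (sd pt : V → Bool) (i : Bool) (S : Finset V)
    (a : ℝ) (ha : ∀ v, a ≤ ((nb G v ∩ qtr sd pt (!(sd v)) i).card : ℝ)) :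
    (S.card : ℝ) * (a - S.card) ≤ (tg G sd pt i S : ℝ) := by
  unfold tg
  push_cast
  rw [← nsmul_eq_mul, ← sum_const]
  refine sum_le_sum fun v _ => ?_
  have h1 : nb G v ∩ qtr sd pt (!(sd v)) i ⊆ ((nb G v \ S) ∩ qtr sd pt (!(sd v)) i) ∪ S := by
    intro w hw
    rw [mem_inter] at hw
    by_cases h : w ∈ S
    · exact mem_union_right _ h
    · exact mem_union_left _ (mem_inter.2 ⟨mem_sdiff.2 ⟨hw.1, h⟩, hw.2⟩)
  have h2 := (card_le_card h1).trans (card_union_le _ _)
  have h3 : ((nb G v ∩ qtr sd pt (!(sd v)) i).card : ℝ) ≤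
    (((nb G v \ S) ∩ qtr sd pt (!(sd v)) i).card : ℝ) + (S.card : ℝ) := by exact_mod_cast h2
  linarith [ha v]

theorem small2 (G : SimpleGraph V) (sd pt : V → Bool) (i : Bool) (S : Finset V)
    (hS : S ⊆ prt pt i)
    (a : ℝ) (ha : ∀ v, a ≤ ((nb G v ∩ qtr sd pt (!(sd v)) i).card : ℝ)) :
    ((prt pt i \ S).card : ℝ) * (a - (prt pt i \ S).card) ≤ (tg G sd pt i S : ℝ) := by
  rw [tg_swap]
  push_cast
  rw [← nsmul_eq_mul, ← sum_const]
  refine sum_le_sum fun w _ => ?_
  have h1 : nb G w ∩ qtr sd pt (!(sd w)) i ⊆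
      (S.filter (fun v => G.Adj w v ∧ sd v = !(sd w))) ∪ (prt pt i \ S) := by
    intro v hv
    rw [mem_inter, mem_qtr] at hv
    have h4 : G.Adj w v := by simpa [nb] using hv.1
    by_cases h : v ∈ S
    · exact mem_union_left _ (mem_filter.2 ⟨h, h4, hv.2.1⟩)
    · exact mem_union_right _ (mem_sdiff.2 ⟨(mem_prt _ _ _).2 hv.2.2, h⟩)
  have h2 := (card_le_card h1).trans (card_union_le _ _)
  have h3 : ((nb G w ∩ qtr sd pt (!(sd w)) i).card : ℝ) ≤
    ((S.filter (fun v => G.Adj w v ∧ sd v = !(sd w))).card : ℝ) + ((prt pt i \ S).card : ℝ) := by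
    exact_mod_cast h2
  linarith [ha w]

/-- small sets -/
theorem small (G : SimpleGraph V) (sd pt : V → Bool) (i : Bool) (S : Finset V)
    (hS : S ⊆ prt pt i) (C α : ℝ) (d : ℕ) (hC : 1 ≤ C) (hα : 0 < α)
    (hV : (Fintype.card V : ℝ) ≤ C * d)
    (ha : ∀ v, α * d ≤ ((nb G v ∩ qtr sd pt (!(sd v)) i).card : ℝ))
    (hsm : (S.card : ℝ) ≤ α / 2 * d ∨ ((prt pt i \ S).card : ℝ) ≤ α / 2 * d) :
    α / (2 * C) * S.card * (prt pt i \ S).card ≤ (tg G sd pt i S : ℝ) := by
  have hd0 : (0 : ℝ) ≤ d := Nat.cast_nonneg d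
  have h1 : (S.card : ℝ) ≤ C * d := le_trans (by exact_mod_cast card_le_univ S) hV
  have h2 : ((prt pt i \ S).card : ℝ) ≤ C * d := le_trans (by exact_mod_cast card_le_univ _) hV
  have hs0 : (0 : ℝ) ≤ S.card := Nat.cast_nonneg _
  have ht0 : (0 : ℝ) ≤ (prt pt i \ S).card := Nat.cast_nonneg _
  have hC0 : 0 < C := by linarith
  have hx : ∀ t : ℝ, t ≤ C * d → α / (2 * C) * t ≤ α / 2 * d := by
    intro t ht
    calc α / (2 * C) * t ≤ α / (2 * C) * (C * d) := mul_le_mul_of_nonneg_left ht (by positivity)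
      _ = α / 2 * d := by field_simp
  rcases hsm with h | h
  · have h3 := small1 G sd pt i S (α * d) ha
    have h4 := hx _ h2
    have h5 : (S.card : ℝ) * (α / 2 * d) ≤ S.card * (α * d - S.card) :=
      mul_le_mul_of_nonneg_left (by linarith) hs0
    have h6 : (S.card : ℝ) * (α / (2 * C) * (prt pt i \ S).card) ≤ S.card * (α / 2 * d) :=
      mul_le_mul_of_nonneg_left h4 hs0
    calc _ = (S.card : ℝ) * (α / (2 * C) * (prt pt i \ S).card) := by ring
      _ ≤ _ := by linarith
  · have h3 := small2 G sd pt i S hS (α * d) ha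
    have h4 := hx _ h1
    have h5 : ((prt pt i \ S).card : ℝ) * (α / 2 * d) ≤
        (prt pt i \ S).card * (α * d - (prt pt i \ S).card) :=
      mul_le_mul_of_nonneg_left (by linarith) ht0
    have h6 : ((prt pt i \ S).card : ℝ) * (α / (2 * C) * S.card) ≤
        (prt pt i \ S).card * (α / 2 * d) :=
      mul_le_mul_of_nonneg_left h4 ht0
    calc _ = ((prt pt i \ S).card : ℝ) * (α / (2 * C) * S.card) := by ring
      _ ≤ _ := by linarith

/-- the arithmetic of the large case -/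
theorem arith (C k lam ρ ξ τ s t s1 t1 n e E d : ℝ) (hC : 1 ≤ C) (hρ : 0 < ρ) (hτ : 0 < τ)
    (hd : 0 ≤ d) (hn0 : 0 ≤ n) (hn : n ≤ C * d) (hξ : 0 < ξ) (hξ1 : 4 * k * ξ * C ≤ τ)
    (hk : 2 ≤ k) (hlam : 0 < lam) (hξ2 : 4 * ξ * C ^ 2 ≤ lam ^ 2 * ρ * τ ^ 2)
    (hs : τ * d ≤ s) (ht : τ * d ≤ t) (hs1 : k * s - 2 * k * ξ * n ≤ s1)
    (ht1 : k * t - 2 * k * ξ * n ≤ t1) (hE : ρ * s1 * t1 ≤ e)
    (hcut : lam ^ 2 * e ≤ E + 2 * ξ * n ^ 2) :
    lam ^ 2 * ρ / 2 * s * t ≤ E := by
  have h1 : 2 * k * ξ * n ≤ τ * d / 2 := by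
    calc 2 * k * ξ * n ≤ 2 * k * ξ * (C * d) := mul_le_mul_of_nonneg_left hn (by positivity)
      _ = (4 * k * ξ * C) * (d / 2) := by ring
      _ ≤ τ * (d / 2) := mul_le_mul_of_nonneg_right hξ1 (by positivity)
      _ = _ := by ring
  have hs0 : 0 ≤ s := le_trans (by positivity) hs
  have ht0 : 0 ≤ t := le_trans (by positivity) ht
  have h2 : s ≤ s1 := by nlinarith
  have h3 : t ≤ t1 := by nlinarith
  have h4 : s * t ≤ s1 * t1 := mul_le_mul h2 h3 ht0 (hs0.trans h2)
  have h5 : ρ * (s * t) ≤ e := by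
    calc ρ * (s * t) ≤ ρ * (s1 * t1) := mul_le_mul_of_nonneg_left h4 hρ.le
      _ = ρ * s1 * t1 := by ring
      _ ≤ e := hE
  have h6 : lam ^ 2 * (ρ * (s * t)) ≤ E + 2 * ξ * n ^ 2 :=
    (mul_le_mul_of_nonneg_left h5 (by positivity)).trans hcut
  have h7 : n ^ 2 ≤ (C * d) ^ 2 := pow_le_pow_left₀ hn0 hn 2
  have h8 : 2 * ξ * n ^ 2 ≤ lam ^ 2 * ρ / 2 * (τ * d) ^ 2 := by
    calc 2 * ξ * n ^ 2 ≤ 2 * ξ * (C * d) ^ 2 := mul_le_mul_of_nonneg_left h7 (by positivity)
      _ = (4 * ξ * C ^ 2) * (d ^ 2 / 2) := by ring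
      _ ≤ (lam ^ 2 * ρ * τ ^ 2) * (d ^ 2 / 2) := mul_le_mul_of_nonneg_right hξ2 (by positivity)
      _ = _ := by ring
  have h9 : (τ * d) ^ 2 ≤ s * t := by
    rw [sq]
    exact mul_le_mul hs ht (by positivity) hs0
  have h10 : lam ^ 2 * ρ / 2 * (τ * d) ^ 2 ≤ lam ^ 2 * ρ / 2 * (s * t) :=
    mul_le_mul_of_nonneg_left h9 (by positivity)
  calc lam ^ 2 * ρ / 2 * s * t = lam ^ 2 * (ρ * (s * t)) - lam ^ 2 * ρ / 2 * (s * t) := by ring
    _ ≤ E := by linarith

theorem card_sides (sd : V → Bool) (S : Finset V) :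
    ((S.filter fun v => sd v = false).card : ℝ) + ((S.filter fun v => sd v = true).card : ℝ) =
      (S.card : ℝ) := by
  have h1 := card_filter_add_card_filter_not (s := S) (fun v => sd v = false)
  have h2 : (S.filter fun v => ¬ sd v = false) = S.filter fun v => sd v = true := by
    ext w; simp
  rw [h2] at h1
  exact_mod_cast h1

theorem card_rest (sd pt : V → Bool) (i : Bool) (S : Finset V) :
    ((qtr sd pt false i \ (S.filter fun v => sd v = false)).card : ℝ) +
      ((qtr sd pt true i \ (S.filter fun v => sd v = true)).card : ℝ) =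
      ((prt pt i \ S).card : ℝ) := by
  rw [← card_sides sd (prt pt i \ S)]
  congr 3
  · ext v; simp only [mem_sdiff, mem_qtr, mem_filter, mem_prt]; tauto
  · ext v; simp only [mem_sdiff, mem_qtr, mem_filter, mem_prt]; tauto

theorem cut_bip (G : SimpleGraph V) (sd : V → Bool) (hbip : ∀ v w, G.Adj v w → sd v ≠ sd w)
    (A B : Finset V) (hA : A ⊆ sid sd false) (hB : B ⊆ sid sd true) :
    ∑ v ∈ A ∪ B, ((nb G v \ (A ∪ B)).card : ℝ) =
      (ee G A (sid sd true \ B) : ℝ) + (ee G B (sid sd false \ A) : ℝ) := by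
  have hd : Disjoint A B := by
    rw [disjoint_left]
    intro v hv hv'
    have h1 := hA hv
    have h2 := hB hv'
    simp only [sid, mem_filter, mem_univ, true_and] at h1 h2
    rw [h1] at h2
    exact Bool.false_ne_true h2
  have hA' : ∀ v ∈ A, sd v = false := fun v hv => by
    have h1 := hA hv
    simpa [sid] using h1
  have hB' : ∀ v ∈ B, sd v = true := fun v hv => by
    have h1 := hB hv
    simpa [sid] using h1
  rw [sum_union hd, ee_sum, ee_sum]
  push_cast
  congr 1
  · refine sum_congr rfl fun v hv => ?_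
    congr 2
    ext w
    simp only [mem_inter, mem_sdiff, mem_union, nb, sid, mem_filter, mem_univ, true_and]
    constructor
    · rintro ⟨h1, h2⟩
      refine ⟨h1, ?_, fun h => h2 (Or.inr h)⟩
      have h3 := hbip v w h1
      rw [hA' v hv] at h3
      cases hw : sd w
      · exact absurd hw.symm h3
      · rfl
    · rintro ⟨h1, h2, h3⟩
      refine ⟨h1, ?_⟩
      rintro (h | h)
      · rw [hA' w h] at h2
        exact Bool.false_ne_true h2
      · exact h3 h
  · refine sum_congr rfl fun v hv => ?_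
    congr 2
    ext w
    simp only [mem_inter, mem_sdiff, mem_union, nb, sid, mem_filter, mem_univ, true_and]
    constructor
    · rintro ⟨h1, h2⟩
      refine ⟨h1, ?_, fun h => h2 (Or.inl h)⟩
      have h3 := hbip v w h1
      rw [hB' v hv] at h3
      cases hw : sd w
      · rfl
      · exact absurd hw.symm h3
    · rintro ⟨h1, h2, h3⟩
      refine ⟨h1, ?_⟩
      rintro (h | h)
      · exact h3 h
      · rw [hB' w h] at h2
        exact Bool.false_ne_true h2.symm

theorem mul_close {lam k x y z : ℝ} (hk : lam * k = 1) (hk0 : 0 < k) (h : |lam * x - y| ≤ z) :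
    k * y - k * z ≤ x := by
  have h1 := (abs_le.1 h).1
  have h2 : k * (lam * x) = x := by rw [← mul_assoc, mul_comm k lam, hk, one_mul]
  nlinarith

theorem bool_opp : ∀ a b : Bool, a ≠ b → b = !a := by decide

theorem num1 {C : ℝ} (hC : 0 < C) : 4 * 2 * (1 / 8 / (8 * C)) * C = 1 / 4 / 2 := by
  field_simp
  norm_num

theorem num2 {C : ℝ} (ρ : ℝ) (hC : 0 < C) : 4 * (ρ * (1 / 8) ^ 2 / (16 * C ^ 2)) * C ^ 2 =
    (1 / 2) ^ 2 * ρ * (1 / 4 / 2) ^ 2 := by
  field_simp
  ring

theorem num3 {ι ι1 d n : ℝ} (h : ι ≤ ι1 / 2) (hι : 0 ≤ ι1) (hd : 0 ≤ d) (hn : d / 2 ≤ n) :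
    ι * d ≤ ι1 * n := by
  calc ι * d ≤ ι1 / 2 * d := mul_le_mul_of_nonneg_right h hd
    _ = ι1 * (d / 2) := by ring
    _ ≤ ι1 * n := mul_le_mul_of_nonneg_left hn hι

theorem num4 {ι d n x : ℝ} (h : ι ≤ 1 / 10) (hd : 0 ≤ d) (h1 : (1 - ι) * d ≤ x) (h2 : x ≤ n) :
    d / 2 ≤ n := by nlinarith

theorem num5 {ι d x y : ℝ} (h : ι ≤ 1 / 10) (hd : 0 ≤ d) (h1 : (1 - ι) * d ≤ x)
    (h2 : -(ι * d) ≤ y - x / 2) : 1 / 4 * d ≤ y := by nlinarith

end CPAux

open CPAux

theorem stmt_CPB (hPC : Stmt_PCUT.{u}) : Stmt_CPB.{u} := by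
  intro C ρ hC hρ
  have hC0 : 0 < C := by linarith
  set ξ : ℝ := min (1 / 8 / (8 * C)) (ρ * (1 / 8) ^ 2 / (16 * C ^ 2)) with hξd
  have hξ : 0 < ξ := lt_min (by positivity) (by positivity)
  have hξa : ξ ≤ 1 / 8 / (8 * C) := min_le_left _ _
  have hξb : ξ ≤ ρ * (1 / 8) ^ 2 / (16 * C ^ 2) := min_le_right _ _
  obtain ⟨M, m0, ι1, hι1, hP⟩ := hPC ξ (1 / 2) hξ (by norm_num) (by norm_num)
  set ι : ℝ := min (ι1 / 2) (1 / 10) with hιd
  have hι : 0 < ι := lt_min (by positivity) (by norm_num)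
  have hιa : ι ≤ ι1 / 2 := min_le_left _ _
  have hιb : ι ≤ 1 / 10 := min_le_right _ _
  refine ⟨M + 1, 2 * m0 + 1, min (ρ / 8) (1 / 4 / (2 * C)), ι, lt_min (by positivity)
    (by positivity), hι, ?_⟩
  intro V _ G d sd hd hV hbip hdeg hcut
  set n : ℝ := (Fintype.card V : ℝ) with hn
  have hn0 : 0 ≤ n := Nat.cast_nonneg _
  have hd0 : (0 : ℝ) ≤ d := Nat.cast_nonneg _
  by_cases hVe : IsEmpty V
  · refine ⟨fun v => (hVe.false v).elim, fun pt _ _ i S _ => ?_⟩
    have : S = ∅ := by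
      ext v; exact (hVe.false v).elim
    subst this
    simp
  rw [not_isEmpty_iff] at hVe
  obtain ⟨v0⟩ := hVe
  have hdn : (d : ℝ) / 2 ≤ n := by
    have h1 := (hdeg v0).2
    have h2 : ((nb G v0).card : ℝ) ≤ n := by
      rw [hn]; exact_mod_cast card_le_univ _
    exact num4 hιb hd0 h1 h2
  have hm : m0 ≤ Fintype.card V := by
    have h1 : (2 * m0 + 1 : ℝ) ≤ d := by exact_mod_cast hd
    have h2 : (m0 : ℝ) ≤ n := by linarith
    rw [hn] at h2
    exact_mod_cast h2
  obtain ⟨cl, hcl⟩ := hP V G hm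
  refine ⟨fun v => Fin.castSucc (cl v), fun pt hpt hdg i S hS => ?_⟩
  have hkey : ∀ v, 1 / 4 * (d : ℝ) ≤ ((nb G v ∩ qtr sd pt (!(sd v)) i).card : ℝ) := by
    intro v
    have h1 : nb G v ∩ prt pt i ⊆ nb G v ∩ qtr sd pt (!(sd v)) i := by
      intro w hw
      rw [mem_inter, mem_prt] at hw
      rw [mem_inter, mem_qtr]
      exact ⟨hw.1, bool_opp _ _ (hbip v w (by simpa only [nb, mem_filter, mem_univ, true_and] using hw.1)), hw.2⟩
    have h2 : ((nb G v ∩ prt pt i).card : ℝ) ≤ ((nb G v ∩ qtr sd pt (!(sd v)) i).card : ℝ) := by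
      exact_mod_cast card_le_card h1
    exact (num5 hιb hd0 (hdeg v).2 (abs_le.1 (hdg v i)).1).trans h2
  have htg : ∑ v ∈ S, (((nb G v \ S) ∩ qtr sd pt (!(sd v)) i).card : ℝ) = (tg G sd pt i S : ℝ) := by
    unfold tg; push_cast; rfl
  rw [htg]
  have hs0 : (0 : ℝ) ≤ S.card := Nat.cast_nonneg _
  have ht0 : (0 : ℝ) ≤ (prt pt i \ S).card := Nat.cast_nonneg _
  by_cases hsm : (S.card : ℝ) ≤ 1 / 4 / 2 * d ∨ ((prt pt i \ S).card : ℝ) ≤ 1 / 4 / 2 * d
  · have h1 := small G sd pt i S hS C (1 / 4) d hC (by norm_num) hV hkey hsm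
    refine le_trans ?_ h1
    rw [mul_assoc, mul_assoc]
    exact mul_le_mul_of_nonneg_right (min_le_right _ _) (by positivity)
  · push Not at hsm
    have hA : (S.filter fun v => sd v = false) ⊆ qtr sd pt false i := by
      intro v hv
      rw [mem_filter] at hv
      exact (mem_qtr _ _ _ _ _).2 ⟨hv.2, (mem_prt _ _ _).1 (hS hv.1)⟩
    have hB : (S.filter fun v => sd v = true) ⊆ qtr sd pt true i := by
      intro v hv
      rw [mem_filter] at hv
      exact (mem_qtr _ _ _ _ _).2 ⟨hv.2, (mem_prt _ _ _).1 (hS hv.1)⟩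
    have hsub : ∀ β, qtr sd pt β i ⊆ sid sd β := by
      intro β v hv
      rw [mem_qtr] at hv
      simp [sid, hv.1]
    have hcls : ∀ β, ∀ m, |(((qtr sd pt β i).filter fun v => cl v = m).card : ℝ) -
        1 / 2 * (((sid sd β).filter fun v => cl v = m).card : ℝ)| ≤ ι1 * n := by
      intro β m
      have h1 := hpt (Fin.castSucc m) β i
      have h2 : ∀ X : Finset V, (X.filter fun v => Fin.castSucc (cl v) = Fin.castSucc m) =
          X.filter fun v => cl v = m := by
        intro X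
        ext v
        simp [Fin.castSucc_inj]
      rw [h2, h2] at h1
      have h3 : ι * d ≤ ι1 * n := num3 hιa hι1.le hd0 hdn
      have h4 : (((sid sd β).filter fun v => cl v = m).card : ℝ) / 2 =
          1 / 2 * (((sid sd β).filter fun v => cl v = m).card : ℝ) := by ring
      rw [h4] at h1
      exact h1.trans h3
    obtain ⟨A1, B1, hA1, hB1, c1, c2, c3, c4, c5, c6⟩ := hcl (sid sd false) (sid sd true)
      (qtr sd pt false i) (qtr sd pt true i) (hsub false) (hsub true) (hcls false) (hcls true)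
      _ _ hA hB
    have hcutS := hcut (A1 ∪ B1)
    rw [cut_bip G sd hbip A1 B1 hA1 hB1] at hcutS
    have hdisj : Disjoint A1 B1 := by
      rw [disjoint_left]
      intro v hv hv'
      have h1 := hA1 hv
      have h2 := hB1 hv'
      simp only [sid, mem_filter, mem_univ, true_and] at h1 h2
      rw [h1] at h2
      exact Bool.false_ne_true h2
    have hc1 : (((A1 ∪ B1).card : ℕ) : ℝ) = (A1.card : ℝ) + (B1.card : ℝ) := by
      rw [card_union_of_disjoint hdisj]; push_cast; rfl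
    have hc2 : (((univ \ (A1 ∪ B1)).card : ℕ) : ℝ) = ((sid sd false \ A1).card : ℝ) +
        ((sid sd true \ B1).card : ℝ) := by
      rw [← card_sides sd (univ \ (A1 ∪ B1))]
      congr 3
      · ext v
        simp only [mem_sdiff, mem_filter, mem_univ, true_and, mem_union, sid]
        constructor
        · rintro ⟨h1, h2⟩; exact ⟨h2, fun h => h1 (Or.inl h)⟩
        · rintro ⟨h1, h2⟩
          refine ⟨?_, h1⟩
          rintro (h | h)
          · exact h2 h
          · have h3 := hB1 h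
            simp only [sid, mem_filter, mem_univ, true_and] at h3
            rw [h1] at h3
            exact Bool.false_ne_true h3
      · ext v
        simp only [mem_sdiff, mem_filter, mem_univ, true_and, mem_union, sid]
        constructor
        · rintro ⟨h1, h2⟩; exact ⟨h2, fun h => h1 (Or.inr h)⟩
        · rintro ⟨h1, h2⟩
          refine ⟨?_, h1⟩
          rintro (h | h)
          · have h3 := hA1 h
            simp only [sid, mem_filter, mem_univ, true_and] at h3
            rw [h1] at h3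
            exact Bool.false_ne_true h3.symm
          · exact h2 h
    rw [hc1, hc2] at hcutS
    have e1 := mul_close (k := 2) (by norm_num) (by norm_num) c1
    have e2 := mul_close (k := 2) (by norm_num) (by norm_num) c2
    have e3 := mul_close (k := 2) (by norm_num) (by norm_num) c3
    have e4 := mul_close (k := 2) (by norm_num) (by norm_num) c4
    have hsS := card_sides sd S
    have htS := card_rest sd pt i S
    have htgR : (tg G sd pt i S : ℝ) =
        (ee G (S.filter fun v => sd v = false) (qtr sd pt true i \ (S.filter fun v => sd v = true)) : ℝ) +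
        (ee G (S.filter fun v => sd v = true) (qtr sd pt false i \ (S.filter fun v => sd v = false)) : ℝ) := by
      rw [tg_eq]; push_cast; rfl
    have hfin := arith C 2 (1 / 2) ρ ξ (1 / 4 / 2) S.card (prt pt i \ S).card
      ((A1.card : ℝ) + B1.card) (((sid sd false \ A1).card : ℝ) + (sid sd true \ B1).card) n
      ((ee G A1 (sid sd true \ B1) : ℝ) + (ee G B1 (sid sd false \ A1) : ℝ)) (tg G sd pt i S) d
      hC hρ (by norm_num) hd0 hn0 hV hξ
      (by
        have h1 : 4 * 2 * ξ * C ≤ 4 * 2 * (1 / 8 / (8 * C)) * C := by gcongr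
        exact h1.trans (num1 hC0).le)
      (by norm_num) (by norm_num)
      (by
        have h1 : 4 * ξ * C ^ 2 ≤ 4 * (ρ * (1 / 8) ^ 2 / (16 * C ^ 2)) * C ^ 2 := by gcongr
        exact h1.trans (num2 ρ hC0).le)
      hsm.1.le hsm.2.le (by linarith) (by linarith) hcutS
      (by
        rw [htgR]
        linarith)
    refine le_trans ?_ hfin
    have h1 : min (ρ / 8) (1 / 4 / (2 * C)) ≤ (1 / 2) ^ 2 * ρ / 2 := by
      refine (min_le_left _ _).trans (le_of_eq ?_)
      ring
    rw [mul_assoc, mul_assoc]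
    exact mul_le_mul_of_nonneg_right h1 (by positivity)

end Pool.Agent.Work.MP_db9399_da.helper73
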