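import Pool.Agent.Work.MP_db9399_da_helper73.CPB

/-!
# MP_db9399, DENSE-ALL: cut condition of the parts, type N (helper73)
-/

set_option autoImplicit false

namespace Pool.Agent.Work.MP_db9399_da.helper73

open Finset Classical
open Pool.Agent.Work.MP_db9399_all (nb)
open Pool.Agent.Work.MP_db9399_da_helper72 (ee Stmt_PCUT)

universe u

namespace CPNAux

theorem num1 {C : ℝ} (hC : 0 < C) : 4 * 4 * (1 / 16 / (16 * C)) * C = 1 / 8 / 2 := by
  field_simp
  norm_num

theorem num2 {C : ℝ} (ρ : ℝ) (hC : 0 < C) : 4 * (ρ * (1 / 64) ^ 2 / (4 * C ^ 2)) * C ^ 2 =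
    (1 / 4) ^ 2 * ρ * (1 / 8 / 2) ^ 2 := by
  field_simp
  ring

theorem num5 {ι d x y : ℝ} (h : ι ≤ 1 / 10) (hd : 0 ≤ d) (h1 : (1 - ι) * d ≤ x)
    (h2 : -(ι * d) ≤ y - x / 4) : 1 / 8 * d ≤ y := by nlinarith

theorem num6 {ι θ d x : ℝ} (h : ι ≤ θ) (hd : 0 ≤ d) (h1 : (1 - ι) * d ≤ x) :
    (1 - θ) * d ≤ x := by nlinarith

theorem card_compl {V : Type u} [Fintype V] (A : Finset V) :
    (((univ \ A).card : ℕ) : ℝ) = (Fintype.card V : ℝ) - (A.card : ℝ) := by
  have h1 := card_sdiff_add_card_eq_card (subset_univ A)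
  rw [card_univ] at h1
  have h2 : (((univ \ A).card : ℕ) : ℝ) + (A.card : ℝ) = (Fintype.card V : ℝ) := by
    exact_mod_cast h1
  linarith

theorem nb_compl {V : Type u} [Fintype V] (G : SimpleGraph V) (A B : Finset V) :
    ∑ v ∈ A, ((nb G v \ B).card : ℝ) = (ee G A (univ \ B) : ℝ) := by
  rw [CPAux.ee_sum]
  push_cast
  refine sum_congr rfl fun v _ => ?_
  congr 2
  ext w
  simp only [mem_sdiff, mem_inter, mem_univ, true_and]

end CPNAux

open CPAux

theorem stmt_CPN (hPC : Stmt_PCUT.{u}) (hD : Stmt_DCUT.{u}) : Stmt_CPN.{u} := by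
  intro C ρ hC hρ
  have hC0 : 0 < C := by linarith
  obtain ⟨ρ2, θ, hρ2, hθ, hDC⟩ := hD C ρ hC hρ
  set ξ : ℝ := min (1 / 16 / (16 * C)) (ρ2 * (1 / 64) ^ 2 / (4 * C ^ 2)) with hξd
  have hξ : 0 < ξ := lt_min (by positivity) (by positivity)
  have hξa : ξ ≤ 1 / 16 / (16 * C) := min_le_left _ _
  have hξb : ξ ≤ ρ2 * (1 / 64) ^ 2 / (4 * C ^ 2) := min_le_right _ _
  obtain ⟨M, m0, ι1, hι1, hP⟩ := hPC ξ (1 / 4) hξ (by norm_num) (by norm_num)
  set ι : ℝ := min (min (ι1 / 2) (1 / 10)) θ with hιd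
  have hι : 0 < ι := lt_min (lt_min (by positivity) (by norm_num)) hθ
  have hιa : ι ≤ ι1 / 2 := (min_le_left _ _).trans (min_le_left _ _)
  have hιb : ι ≤ 1 / 10 := (min_le_left _ _).trans (min_le_right _ _)
  have hιc : ι ≤ θ := min_le_right _ _
  refine ⟨M + 1, 2 * m0 + 1, min (ρ2 / 32) (1 / 8 / (2 * C)), ι, lt_min (by positivity)
    (by positivity), hι, ?_⟩
  intro V _ G d hd hV hdeg hcut hnb
  set n : ℝ := (Fintype.card V : ℝ) with hn
  have hn0 : 0 ≤ n := Nat.cast_nonneg _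
  have hd0 : (0 : ℝ) ≤ d := Nat.cast_nonneg _
  by_cases hVe : IsEmpty V
  · refine ⟨fun v => (hVe.false v).elim, fun sd pt _ _ i S _ => ?_⟩
    have : S = ∅ := by
      ext v; exact (hVe.false v).elim
    subst this
    simp
  rw [not_isEmpty_iff] at hVe
  obtain ⟨v0⟩ := hVe
  have hdn : (d : ℝ) / 2 ≤ n := by
    have h1 := (hdeg v0).2
    have h2 : ((nb G v0).card : ℝ) ≤ n := by
      rw [hn]; exact_mod_cast card_le_univ _
    exact num4 hιb hd0 h1 h2
  have hm : m0 ≤ Fintype.card V := by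
    have h1 : (2 * m0 + 1 : ℝ) ≤ d := by exact_mod_cast hd
    have h2 : (m0 : ℝ) ≤ n := by linarith
    rw [hn] at h2
    exact_mod_cast h2
  obtain ⟨cl, hcl⟩ := hP V G hm
  have hDC' := hDC G d (by omega) hV
    (fun v => ⟨(hdeg v).1, CPNAux.num6 hιc hd0 (hdeg v).2⟩) hcut hnb
  refine ⟨fun v => Fin.castSucc (cl v), fun sd pt hpt hdg i S hS => ?_⟩
  have hkey : ∀ v, 1 / 8 * (d : ℝ) ≤ ((nb G v ∩ qtr sd pt (!(sd v)) i).card : ℝ) := by
    intro v
    exact CPNAux.num5 hιb hd0 (hdeg v).2 (abs_le.1 (hdg v (!(sd v)) i)).1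
  have htg : ∑ v ∈ S, (((nb G v \ S) ∩ qtr sd pt (!(sd v)) i).card : ℝ) = (tg G sd pt i S : ℝ) := by
    unfold tg; push_cast; rfl
  rw [htg]
  have hs0 : (0 : ℝ) ≤ S.card := Nat.cast_nonneg _
  have ht0 : (0 : ℝ) ≤ (prt pt i \ S).card := Nat.cast_nonneg _
  by_cases hsm : (S.card : ℝ) ≤ 1 / 8 / 2 * d ∨ ((prt pt i \ S).card : ℝ) ≤ 1 / 8 / 2 * d
  · have h1 := small G sd pt i S hS C (1 / 8) d hC (by norm_num) hV hkey hsm
    refine le_trans ?_ h1
    rw [mul_assoc, mul_assoc]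
    exact mul_le_mul_of_nonneg_right (min_le_right _ _) (by positivity)
  · push Not at hsm
    have hA : (S.filter fun v => sd v = false) ⊆ qtr sd pt false i := by
      intro v hv
      rw [mem_filter] at hv
      exact (mem_qtr _ _ _ _ _).2 ⟨hv.2, (mem_prt _ _ _).1 (hS hv.1)⟩
    have hB : (S.filter fun v => sd v = true) ⊆ qtr sd pt true i := by
      intro v hv
      rw [mem_filter] at hv
      exact (mem_qtr _ _ _ _ _).2 ⟨hv.2, (mem_prt _ _ _).1 (hS hv.1)⟩
    have hcls : ∀ β, ∀ m, |(((qtr sd pt β i).filter fun v => cl v = m).card : ℝ) -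
        1 / 4 * (((univ : Finset V).filter fun v => cl v = m).card : ℝ)| ≤ ι1 * n := by
      intro β m
      have h1 := hpt (Fin.castSucc m) β i
      have h2 : ∀ X : Finset V, (X.filter fun v => Fin.castSucc (cl v) = Fin.castSucc m) =
          X.filter fun v => cl v = m := by
        intro X
        ext v
        simp [Fin.castSucc_inj]
      rw [h2, h2] at h1
      have h3 : ι * d ≤ ι1 * n := num3 hιa hι1.le hd0 hdn
      have h4 : (((univ : Finset V).filter fun v => cl v = m).card : ℝ) / 4 =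
          1 / 4 * (((univ : Finset V).filter fun v => cl v = m).card : ℝ) := by ring
      rw [h4] at h1
      exact h1.trans h3
    obtain ⟨A1, B1, -, -, c1, c2, c3, c4, c5, c6⟩ := hcl univ univ
      (qtr sd pt false i) (qtr sd pt true i) (subset_univ _) (subset_univ _) (hcls false)
      (hcls true) _ _ hA hB
    have hcutS := hDC' A1 B1
    rw [CPNAux.nb_compl, CPNAux.nb_compl] at hcutS
    have e1 := mul_close (k := 4) (by norm_num) (by norm_num) c1
    have e2 := mul_close (k := 4) (by norm_num) (by norm_num) c2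
    have e3 := mul_close (k := 4) (by norm_num) (by norm_num) c3
    have e4 := mul_close (k := 4) (by norm_num) (by norm_num) c4
    rw [CPNAux.card_compl] at e2 e4
    have hsS := card_sides sd S
    have htS := card_rest sd pt i S
    have htgR : (tg G sd pt i S : ℝ) =
        (ee G (S.filter fun v => sd v = false) (qtr sd pt true i \ (S.filter fun v => sd v = true)) : ℝ) +
        (ee G (S.filter fun v => sd v = true) (qtr sd pt false i \ (S.filter fun v => sd v = false)) : ℝ) := by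
      rw [tg_eq]; push_cast; rfl
    have hfin := arith C 4 (1 / 4) ρ2 ξ (1 / 8 / 2) S.card (prt pt i \ S).card
      ((A1.card : ℝ) + B1.card) (2 * n - A1.card - B1.card) n
      ((ee G A1 (univ \ B1) : ℝ) + (ee G B1 (univ \ A1) : ℝ)) (tg G sd pt i S) d
      hC hρ2 (by norm_num) hd0 hn0 hV hξ
      (by
        have h1 : 4 * 4 * ξ * C ≤ 4 * 4 * (1 / 16 / (16 * C)) * C := by gcongr
        exact h1.trans (CPNAux.num1 hC0).le)
      (by norm_num) (by norm_num)
      (by
        have h1 : 4 * ξ * C ^ 2 ≤ 4 * (ρ2 * (1 / 64) ^ 2 / (4 * C ^ 2)) * C ^ 2 := by gcongr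
        exact h1.trans (CPNAux.num2 ρ2 hC0).le)
      hsm.1.le hsm.2.le (by linarith) (by linarith) hcutS
      (by
        rw [htgR]
        linarith)
    refine le_trans ?_ hfin
    have h1 : min (ρ2 / 32) (1 / 8 / (2 * C)) ≤ (1 / 4) ^ 2 * ρ2 / 2 := by
      refine (min_le_left _ _).trans (le_of_eq ?_)
      ring
    rw [mul_assoc, mul_assoc]
    exact mul_le_mul_of_nonneg_right h1 (by positivity)

end Pool.Agent.Work.MP_db9399_da.helper73
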