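import Mathlib
import Pool.Agent.Work.MP_db9399_da_helper72.Stm

/-!
# Weak regularity from `szemeredi_regularity` (helper73)
-/

set_option autoImplicit false

namespace Pool.Agent.Work.MP_db9399_da_helper73

open Finset Classical
open Pool.Agent.Work.MP_db9399_da_helper72 (ee dg Stmt_WR)

universe u

namespace WRAux

variable {V : Type u} [Fintype V]

lemma ee_eq (H : SimpleGraph V) (A B : Finset V) :
    (ee H A B : ℝ) = ((H.edgeDensity A B : ℚ) : ℝ) * (A.card : ℝ) * (B.card : ℝ) := by
  have h1 : ee H A B = (H.interedges A B).card := by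
    unfold ee SimpleGraph.interedges Rel.interedges
    congr
  rw [h1, SimpleGraph.edgeDensity_def]
  rcases A.eq_empty_or_nonempty with rfl | hA
  · simp
  rcases B.eq_empty_or_nonempty with rfl | hB
  · simp [SimpleGraph.interedges, Rel.interedges]
  have hA' : (A.card : ℝ) ≠ 0 := by exact_mod_cast hA.card_pos.ne'
  have hB' : (B.card : ℝ) ≠ 0 := by exact_mod_cast hB.card_pos.ne'
  push_cast
  field_simp

lemma ee_le (H : SimpleGraph V) (A B : Finset V) :
    (ee H A B : ℝ) ≤ (A.card : ℝ) * (B.card : ℝ) := by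
  unfold ee
  have := card_filter_le (A ×ˢ B) (fun p => H.Adj p.1 p.2)
  rw [card_product] at this
  exact_mod_cast this

lemma den_nonneg (H : SimpleGraph V) (A B : Finset V) : (0 : ℝ) ≤ ((H.edgeDensity A B : ℚ) : ℝ) := by
  exact_mod_cast H.edgeDensity_nonneg A B

lemma den_le (H : SimpleGraph V) (A B : Finset V) : ((H.edgeDensity A B : ℚ) : ℝ) ≤ 1 := by
  exact_mod_cast H.edgeDensity_le_one A B

/-- trivial bound -/
lemma triv (H : SimpleGraph V) {U W A B : Finset V} (hA : A ⊆ U) (hB : B ⊆ W) :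
    |(ee H A B : ℝ) - ((H.edgeDensity U W : ℚ) : ℝ) * (A.card : ℝ) * (B.card : ℝ)| ≤
      (U.card : ℝ) * (W.card : ℝ) := by
  have h1 := ee_le H A B
  have h2 : (0 : ℝ) ≤ (ee H A B : ℝ) := by positivity
  have h3 := den_nonneg H U W
  have h4 := den_le H U W
  have h5 : (A.card : ℝ) ≤ U.card := by exact_mod_cast card_le_card hA
  have h6 : (B.card : ℝ) ≤ W.card := by exact_mod_cast card_le_card hB
  have h7 : (0 : ℝ) ≤ (A.card : ℝ) * (B.card : ℝ) := by positivity
  have h8 : (A.card : ℝ) * (B.card : ℝ) ≤ (U.card : ℝ) * (W.card : ℝ) := by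
    apply mul_le_mul h5 h6 (by positivity) (by positivity)
  have h9 : ((H.edgeDensity U W : ℚ) : ℝ) * (A.card : ℝ) * (B.card : ℝ) ≤
      (A.card : ℝ) * (B.card : ℝ) := by
    rw [mul_assoc]; exact mul_le_of_le_one_left h7 h4
  have h10 : 0 ≤ ((H.edgeDensity U W : ℚ) : ℝ) * (A.card : ℝ) * (B.card : ℝ) := by positivity
  rw [abs_le]
  constructor <;> linarith

/-- uniform pairs -/
lemma unif (H : SimpleGraph V) {ε : ℝ} (hε : 0 < ε) {U W A B : Finset V}
    (hU : H.IsUniform ε U W) (hA : A ⊆ U) (hB : B ⊆ W) :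
    |(ee H A B : ℝ) - ((H.edgeDensity U W : ℚ) : ℝ) * (A.card : ℝ) * (B.card : ℝ)| ≤
      ε * ((U.card : ℝ) * (W.card : ℝ)) := by
  have h1 := ee_le H A B
  have h2 : (0 : ℝ) ≤ (ee H A B : ℝ) := by positivity
  have h3 := den_nonneg H U W
  have h4 := den_le H U W
  have h5 : (A.card : ℝ) ≤ U.card := by exact_mod_cast card_le_card hA
  have h6 : (B.card : ℝ) ≤ W.card := by exact_mod_cast card_le_card hB
  have h7 : (0 : ℝ) ≤ (A.card : ℝ) * (B.card : ℝ) := by positivity
  have h8 : (A.card : ℝ) * (B.card : ℝ) ≤ (U.card : ℝ) * (W.card : ℝ) := by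
    apply mul_le_mul h5 h6 (by positivity) (by positivity)
  have h9 : ((H.edgeDensity U W : ℚ) : ℝ) * (A.card : ℝ) * (B.card : ℝ) ≤
      (A.card : ℝ) * (B.card : ℝ) := by
    rw [mul_assoc]; exact mul_le_of_le_one_left h7 h4
  have h10 : 0 ≤ ((H.edgeDensity U W : ℚ) : ℝ) * (A.card : ℝ) * (B.card : ℝ) := by positivity
  by_cases ha : (U.card : ℝ) * ε ≤ A.card
  · by_cases hb : (W.card : ℝ) * ε ≤ B.card
    · have h := hU hA hB ha hb
      rw [ee_eq H A B]
      have h11 : ((H.edgeDensity A B : ℚ) : ℝ) * (A.card : ℝ) * (B.card : ℝ) -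
          ((H.edgeDensity U W : ℚ) : ℝ) * (A.card : ℝ) * (B.card : ℝ) =
          (((H.edgeDensity A B : ℚ) : ℝ) - ((H.edgeDensity U W : ℚ) : ℝ)) *
            ((A.card : ℝ) * (B.card : ℝ)) := by ring
      rw [h11, abs_mul, abs_of_nonneg h7]
      exact mul_le_mul h.le h8 h7 hε.le
    · push Not at hb
      have h12 : (A.card : ℝ) * (B.card : ℝ) ≤ ε * ((U.card : ℝ) * (W.card : ℝ)) := by
        calc (A.card : ℝ) * (B.card : ℝ) ≤ (U.card : ℝ) * ((W.card : ℝ) * ε) :=
              mul_le_mul h5 hb.le (by positivity) (by positivity)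
          _ = _ := by ring
      rw [abs_le]
      constructor <;> linarith
  · push Not at ha
    have h12 : (A.card : ℝ) * (B.card : ℝ) ≤ ε * ((U.card : ℝ) * (W.card : ℝ)) := by
      calc (A.card : ℝ) * (B.card : ℝ) ≤ ((U.card : ℝ) * ε) * (W.card : ℝ) :=
            mul_le_mul ha.le h6 (by positivity) (by positivity)
        _ = _ := by ring
    rw [abs_le]
    constructor <;> linarith

/-- decomposition of `ee` into classes -/
lemma ee_sum {M : ℕ} (H : SimpleGraph V) (cl : V → Fin M) (A B : Finset V) :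
    (ee H A B : ℝ) = ∑ i, ∑ j, (ee H (A.filter fun v => cl v = i) (B.filter fun v => cl v = j) : ℝ) := by
  have h : ee H A B = ∑ x : Fin M × Fin M,
      ee H (A.filter fun v => cl v = x.1) (B.filter fun v => cl v = x.2) := by
    unfold ee
    rw [Finset.card_eq_sum_card_fiberwise (f := fun p : V × V => (cl p.1, cl p.2))
      (t := (univ : Finset (Fin M × Fin M))) (by intro x _; simp)]
    refine Finset.sum_congr rfl fun x _ => ?_
    congr 1
    ext p
    simp only [mem_filter, mem_product]
    constructor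
    · rintro ⟨⟨⟨ha, hb⟩, hadj⟩, heq⟩
      obtain ⟨h1, h2⟩ := Prod.mk.injEq _ _ _ _ ▸ (show (cl p.1, cl p.2) = (x.1, x.2) from heq)
      exact ⟨⟨⟨ha, h1⟩, hb, h2⟩, hadj⟩
    · rintro ⟨⟨⟨ha, h1⟩, hb, h2⟩, hadj⟩
      exact ⟨⟨⟨ha, hb⟩, hadj⟩, by rw [h1, h2]⟩
  rw [h]
  push_cast
  rw [Fintype.sum_prod_type]

end WRAux

open WRAux

theorem stmt_WR : Stmt_WR.{u} := by
  intro ι hι
  set ε : ℝ := ι / 10 with hεd
  have hε : 0 < ε := by positivity
  obtain ⟨l, hl⟩ := exists_nat_ge (8 / ι + 1)
  have hl1 : (1 : ℝ) ≤ l := le_trans (by have : 0 < 8 / ι := by positivity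
                                         linarith) hl
  have hl0 : 0 < l := by
    by_contra h
    have : l = 0 := by omega
    subst this
    norm_num at hl1
  refine ⟨SzemerediRegularity.bound ε l, l, fun V _ H hm => ?_⟩
  obtain ⟨P, hPe, hPl, hPb, hPu⟩ := szemeredi_regularity H hε hm
  set M := SzemerediRegularity.bound ε l with hM
  have hM0 : 0 < M := SzemerediRegularity.bound_pos ε l
  -- injective numbering of the parts
  obtain ⟨g, hg⟩ : ∃ g : Finset V → Fin M, Set.InjOn g (P.parts : Set (Finset V)) := by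
    refine ⟨fun U => if h : U ∈ P.parts then Fin.castLE hPb (P.parts.equivFin ⟨U, h⟩) else ⟨0, hM0⟩,
      ?_⟩
    intro U hU W hW hUW
    have hU' : U ∈ P.parts := hU
    have hW' : W ∈ P.parts := hW
    simp only [hU', hW', dif_pos] at hUW
    have h1 := Fin.castLE_injective hPb hUW
    have h2 := P.parts.equivFin.injective h1
    exact congrArg Subtype.val h2
  set inv : Fin M → Finset V := Function.invFunOn g (P.parts : Set (Finset V)) with hinv
  have hinvg : ∀ U ∈ P.parts, inv (g U) = U := fun U hU => hg.leftInvOn_invFunOn hU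
  set cl : V → Fin M := fun v => g (P.part v) with hcl
  have hpart : ∀ v, P.part v ∈ P.parts := fun v => P.part_mem.2 (mem_univ v)
  refine ⟨cl, fun i j => ((H.edgeDensity (inv i) (inv j) : ℚ) : ℝ),
    fun i j => ⟨den_nonneg H _ _, den_le H _ _⟩, fun A B => ?_⟩
  -- classes of the partition
  have hsub : ∀ (A : Finset V) (U : Finset V), U ∈ P.parts → (A.filter fun v => cl v = g U) ⊆ U := by
    intro A U hU v hv
    rw [mem_filter] at hv
    have h1 : P.part v = U := hg (hpart v) hU hv.2
    rw [← h1]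
    exact P.mem_part (mem_univ v)
  have hemp : ∀ (A : Finset V) (i : Fin M), i ∉ P.parts.image g → (A.filter fun v => cl v = i) = ∅ := by
    intro A i hi
    rw [filter_eq_empty_iff]
    intro v _ hv
    exact hi (mem_image.2 ⟨P.part v, hpart v, hv⟩)
  rw [ee_sum H cl A B, ← Finset.sum_sub_distrib]
  have hrew : ∀ i : Fin M, (∑ j, (ee H (A.filter fun v => cl v = i) (B.filter fun v => cl v = j) : ℝ)) -
      ∑ j, ((H.edgeDensity (inv i) (inv j) : ℚ) : ℝ) * ((A.filter fun v => cl v = i).card : ℝ) *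
        ((B.filter fun v => cl v = j).card : ℝ) =
      ∑ j, ((ee H (A.filter fun v => cl v = i) (B.filter fun v => cl v = j) : ℝ) -
        ((H.edgeDensity (inv i) (inv j) : ℚ) : ℝ) * ((A.filter fun v => cl v = i).card : ℝ) *
        ((B.filter fun v => cl v = j).card : ℝ)) := fun i => (Finset.sum_sub_distrib _ _).symm
  simp only [hrew]
  -- pass to sums over parts
  have hred : ∑ i, ∑ j, ((ee H (A.filter fun v => cl v = i) (B.filter fun v => cl v = j) : ℝ) -
        ((H.edgeDensity (inv i) (inv j) : ℚ) : ℝ) * ((A.filter fun v => cl v = i).card : ℝ) *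
        ((B.filter fun v => cl v = j).card : ℝ)) =
      ∑ U ∈ P.parts, ∑ W ∈ P.parts,
        ((ee H (A.filter fun v => cl v = g U) (B.filter fun v => cl v = g W) : ℝ) -
        ((H.edgeDensity U W : ℚ) : ℝ) * ((A.filter fun v => cl v = g U).card : ℝ) *
        ((B.filter fun v => cl v = g W).card : ℝ)) := by
    rw [← Finset.sum_subset (subset_univ (P.parts.image g))]
    · rw [Finset.sum_image hg]
      refine Finset.sum_congr rfl fun U hU => ?_
      rw [← Finset.sum_subset (subset_univ (P.parts.image g))]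
      · rw [Finset.sum_image hg]
        refine Finset.sum_congr rfl fun W hW => ?_
        rw [hinvg U hU, hinvg W hW]
      · intro j _ hj
        rw [hemp B j hj]
        simp [ee]
    · intro i _ hi
      apply Finset.sum_eq_zero
      intro j _
      rw [hemp A i hi]
      simp [ee]
  rw [hred]
  -- the bound
  set k := P.parts.card with hk
  set m := Fintype.card V with hmd
  have hk0 : 0 < k := lt_of_lt_of_le hl0 hPl
  have hkm : k ≤ m := by
    have := P.card_parts_le_card
    rwa [card_univ] at this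
  have hkR : (0 : ℝ) < k := by exact_mod_cast hk0
  have hmR : (0 : ℝ) ≤ m := by positivity
  have hsize : ∀ U ∈ P.parts, (U.card : ℝ) ≤ 2 * m / k := by
    intro U hU
    have h1 := hPe.card_part_le_average_add_one hU
    rw [card_univ] at h1
    have h2 : ((m / k : ℕ) : ℝ) ≤ (m : ℝ) / k := Nat.cast_div_le
    have h3 : (1 : ℝ) ≤ (m : ℝ) / k := by
      rw [le_div_iff₀ hkR, one_mul]
      exact_mod_cast hkm
    calc (U.card : ℝ) ≤ ((m / k + 1 : ℕ) : ℝ) := by exact_mod_cast h1
      _ = ((m / k : ℕ) : ℝ) + 1 := by push_cast; ring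
      _ ≤ (m : ℝ) / k + (m : ℝ) / k := add_le_add h2 h3
      _ = 2 * m / k := by ring
  set q : ℝ := 2 * m / k with hq
  have hsum : ∑ U ∈ P.parts, (U.card : ℝ) = m := by
    have := P.sum_card_parts
    rw [card_univ] at this
    exact_mod_cast this
  set bad : Finset V → Finset V → Prop := fun U W => U = W ∨ (U, W) ∈ P.nonUniforms H ε with hbad
  have hterm : ∀ U ∈ P.parts, ∀ W ∈ P.parts,
      |(ee H (A.filter fun v => cl v = g U) (B.filter fun v => cl v = g W) : ℝ) -
        ((H.edgeDensity U W : ℚ) : ℝ) * ((A.filter fun v => cl v = g U).card : ℝ) *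
        ((B.filter fun v => cl v = g W).card : ℝ)| ≤
      ε * ((U.card : ℝ) * (W.card : ℝ)) + (if bad U W then q * q else (0 : ℝ)) := by
    intro U hU W hW
    by_cases hb : bad U W
    · rw [if_pos hb]
      have h1 := triv H (hsub A U hU) (hsub B W hW)
      have h2 : (U.card : ℝ) * (W.card : ℝ) ≤ q * q :=
        mul_le_mul (hsize U hU) (hsize W hW) (by positivity) (by positivity)
      have h3 : 0 ≤ ε * ((U.card : ℝ) * (W.card : ℝ)) := by positivity
      linarith
    · rw [if_neg hb, add_zero]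
      have hne : U ≠ W := fun h => hb (Or.inl h)
      have hun : H.IsUniform ε U W := by
        by_contra hc
        exact hb (Or.inr ((P.mk_mem_nonUniforms H).2 ⟨hU, hW, hne, hc⟩))
      exact unif H hε hun (hsub A U hU) (hsub B W hW)
  have hbadc : ∑ U ∈ P.parts, ∑ W ∈ P.parts, (if bad U W then q * q else (0 : ℝ)) ≤
      ((k : ℝ) + k * k * ε) * (q * q) := by
    rw [← Finset.sum_product', ← Finset.sum_filter, Finset.sum_const, nsmul_eq_mul]
    apply mul_le_mul_of_nonneg_right _ (by positivity)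
    have h1 : (P.parts ×ˢ P.parts).filter (fun x => bad x.1 x.2) ⊆
        P.parts.diag ∪ P.nonUniforms H ε := by
      intro x hx
      rw [mem_filter, mem_product] at hx
      rcases hx.2 with h | h
      · exact mem_union_left _ (mem_diag.2 ⟨hx.1.1, h⟩)
      · exact mem_union_right _ h
    have h2 := (card_le_card h1).trans (card_union_le _ _)
    rw [diag_card] at h2
    have h3 : ((P.nonUniforms H ε).card : ℝ) ≤ k * k * ε := by
      have h4 : ((P.nonUniforms H ε).card : ℝ) ≤ ((k * (k - 1) : ℕ) : ℝ) * ε := hPu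
      refine h4.trans (mul_le_mul_of_nonneg_right ?_ hε.le)
      have : k * (k - 1) ≤ k * k := Nat.mul_le_mul_left _ (Nat.sub_le _ _)
      exact_mod_cast this
    have h5 : ((((P.parts ×ˢ P.parts).filter (fun x => bad x.1 x.2)).card : ℕ) : ℝ) ≤
        (k : ℝ) + ((P.nonUniforms H ε).card : ℝ) := by exact_mod_cast h2
    linarith
  calc |∑ U ∈ P.parts, ∑ W ∈ P.parts,
        ((ee H (A.filter fun v => cl v = g U) (B.filter fun v => cl v = g W) : ℝ) -
        ((H.edgeDensity U W : ℚ) : ℝ) * ((A.filter fun v => cl v = g U).card : ℝ) *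
        ((B.filter fun v => cl v = g W).card : ℝ))|
      ≤ ∑ U ∈ P.parts, ∑ W ∈ P.parts, (ε * ((U.card : ℝ) * (W.card : ℝ)) +
        (if bad U W then q * q else (0 : ℝ))) := by
        refine (Finset.abs_sum_le_sum_abs _ _).trans (Finset.sum_le_sum fun U hU => ?_)
        exact (Finset.abs_sum_le_sum_abs _ _).trans (Finset.sum_le_sum fun W hW => hterm U hU W hW)
    _ = ε * (m * m) + ∑ U ∈ P.parts, ∑ W ∈ P.parts,
        (if bad U W then q * q else (0 : ℝ)) := by
        simp only [Finset.sum_add_distrib]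
        congr 1
        simp only [← Finset.mul_sum, ← Finset.sum_mul, hsum]
    _ ≤ ε * (m * m) + ((k : ℝ) + k * k * ε) * (q * q) := by linarith
    _ = (5 * ε + 4 / k) * (m : ℝ) ^ 2 := by
        rw [hq]
        field_simp
        ring
    _ ≤ ι * (m : ℝ) ^ 2 := by
        apply mul_le_mul_of_nonneg_right _ (by positivity)
        have h1 : (4 : ℝ) / k ≤ ι / 2 := by
          have h2 : (8 / ι : ℝ) ≤ k := by
            have h3 : (l : ℝ) ≤ k := by exact_mod_cast hPl
            linarith
          rw [div_le_iff₀ hkR]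
          have h4 : ι / 2 * (8 / ι) = 4 := by field_simp; norm_num
          calc (4 : ℝ) = ι / 2 * (8 / ι) := h4.symm
            _ ≤ ι / 2 * k := mul_le_mul_of_nonneg_left h2 (by positivity)
        rw [hεd]
        linarith

end Pool.Agent.Work.MP_db9399_da_helper73
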