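import Mathlib
import Pool.Agent.Work.MP_db9399_da_helper72.Stm

/-!
# Random labels of the edges (helper73)
-/

set_option autoImplicit false

namespace Pool.Agent.Work.MP_db9399_da_helper73

open Finset Classical
open Pool.Agent.Work.MP_db9399_da_helper72 (ee dg Stmt_SPLIT)

universe u

namespace SPLITAux

/-- probability of an event in a finite uniform space -/
noncomputable def pr {Ω : Type u} [Fintype Ω] (E : Ω → Prop) : ℝ :=
  ((univ.filter E).card : ℝ) / (Fintype.card Ω : ℝ)

/-- Chernoff bound in a product space, both signs. -/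
theorem chern {J : Type u} [Fintype J] [DecidableEq J] {M : ℕ} (hM : 0 < M) (Q : Finset J)
    (x : J → Fin M → ℝ) (hx : ∀ y c, x y c = 0 ∨ x y c = 1) (S : ℝ)
    (hS : ∑ y ∈ Q, ∑ c, x y c = S * M) (l t : ℝ) (hl : |l| ≤ 1) :
    pr (fun f : J → Fin M => l * t ≤ l * ∑ y ∈ Q, x y (f y)) ≤
      Real.exp (S * (l + l ^ 2) - l * t) := by
  have hMr : (0 : ℝ) < M := by exact_mod_cast hM
  set g : J → Fin M → ℝ := fun y c => if y ∈ Q then Real.exp (l * x y c) else 1 with hg
  have hx0 : ∀ y c, 0 ≤ x y c := fun y c => by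
    rcases hx y c with h | h
    · rw [h]
    · rw [h]; norm_num
  have h1 : (((univ.filter (fun f : J → Fin M => l * t ≤ l * ∑ y ∈ Q, x y (f y))).card : ℝ)) *
      Real.exp (l * t) ≤ ∑ f : J → Fin M, ∏ y, g y (f y) := by
    have h2 : ∀ f : J → Fin M, ∏ y, g y (f y) = Real.exp (l * ∑ y ∈ Q, x y (f y)) := by
      intro f
      rw [Finset.mul_sum, Real.exp_sum, hg]
      simp only
      rw [Finset.prod_ite]
      simp
    rw [← nsmul_eq_mul, ← Finset.sum_const]
    refine (Finset.sum_le_sum (g := fun f : J → Fin M => ∏ y, g y (f y)) ?_).trans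
      (Finset.sum_le_sum_of_subset_of_nonneg (Finset.subset_univ _) ?_)
    · intro f hf
      rw [h2]
      exact Real.exp_le_exp.2 (Finset.mem_filter.1 hf).2
    · intro f _ _
      rw [h2]
      exact (Real.exp_pos _).le
  have h3 : ∑ f : J → Fin M, ∏ y, g y (f y) = ∏ y, ∑ c, g y c := by
    rw [Finset.prod_univ_sum]
    simp [Fintype.piFinset_univ]
  have h4 : ∀ y, ∑ c, g y c ≤ M * Real.exp (if y ∈ Q then
      (Real.exp l - 1) * ((∑ c, x y c) / M) else 0) := by
    intro y
    by_cases hy : y ∈ Q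
    · simp only [hg, if_pos hy]
      have h5 : ∀ c, Real.exp (l * x y c) = 1 + (Real.exp l - 1) * x y c := by
        intro c
        rcases hx y c with h | h <;> rw [h] <;> simp
      simp_rw [h5]
      rw [Finset.sum_add_distrib, ← Finset.mul_sum, Finset.sum_const, Finset.card_univ,
        Fintype.card_fin, nsmul_eq_mul, mul_one]
      have h6 := Real.add_one_le_exp ((Real.exp l - 1) * ((∑ c, x y c) / M))
      calc (M : ℝ) + (Real.exp l - 1) * ∑ c, x y c
          = M * ((Real.exp l - 1) * ((∑ c, x y c) / M) + 1) := by field_simp; ring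
        _ ≤ _ := mul_le_mul_of_nonneg_left h6 hMr.le
    · simp [hg, if_neg hy]
  have h7 : ∏ y, ∑ c, g y c ≤ (M : ℝ) ^ Fintype.card J * Real.exp ((Real.exp l - 1) * S) := by
    refine (Finset.prod_le_prod (fun y _ => Finset.sum_nonneg fun c _ => ?_)
      (fun y _ => h4 y)).trans (le_of_eq ?_)
    · simp only [hg]
      split_ifs
      · exact (Real.exp_pos _).le
      · norm_num
    · rw [Finset.prod_mul_distrib, Finset.prod_const, Finset.card_univ, ← Real.exp_sum]
      congr 2
      rw [Finset.sum_ite_mem, Finset.univ_inter, ← Finset.mul_sum, ← Finset.sum_div, hS]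
      field_simp
  have hS0 : 0 ≤ S := by
    have : 0 ≤ S * M := by
      rw [← hS]
      exact Finset.sum_nonneg fun y _ => Finset.sum_nonneg fun c _ => hx0 y c
    exact nonneg_of_mul_nonneg_left this hMr
  have h8 : Real.exp l - 1 ≤ l + l ^ 2 := by
    have := (abs_le.1 (Real.abs_exp_sub_one_sub_id_le hl)).2
    linarith
  have hc : ((Fintype.card (J → Fin M) : ℕ) : ℝ) = (M : ℝ) ^ Fintype.card J := by
    rw [Fintype.card_fun, Fintype.card_fin]
    push_cast
    ring
  unfold pr
  rw [hc, div_le_iff₀ (by positivity)]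
  have h9 : (((univ.filter (fun f : J → Fin M => l * t ≤ l * ∑ y ∈ Q, x y (f y))).card : ℝ)) *
      Real.exp (l * t) ≤ (M : ℝ) ^ Fintype.card J * Real.exp (S * (l + l ^ 2)) := by
    refine h1.trans (h3.le.trans (h7.trans ?_))
    refine mul_le_mul_of_nonneg_left (Real.exp_le_exp.2 ?_) (by positivity)
    nlinarith
  rw [Real.exp_sub]
  rw [div_mul_eq_mul_div, le_div_iff₀ (Real.exp_pos _)]
  linarith

theorem pr_le_add {Ω : Type u} [Fintype Ω] {E A B : Ω → Prop} (h : ∀ w, E w → A w ∨ B w) :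
    pr E ≤ pr A + pr B := by
  unfold pr
  rw [← add_div]
  refine div_le_div_of_nonneg_right ?_ (Nat.cast_nonneg _)
  have : (univ.filter E).card ≤ (univ.filter A).card + (univ.filter B).card := by
    refine (Finset.card_le_card (t := univ.filter A ∪ univ.filter B) ?_).trans
      (Finset.card_union_le _ _)
    intro w hw
    simp only [Finset.mem_filter, Finset.mem_univ, true_and, Finset.mem_union] at hw ⊢
    exact h w hw
  exact_mod_cast this

theorem pr_mono {Ω : Type u} [Fintype Ω] {E A : Ω → Prop} (h : ∀ w, E w → A w) :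
    pr E ≤ pr A := by
  unfold pr
  refine div_le_div_of_nonneg_right ?_ (Nat.cast_nonneg _)
  exact_mod_cast card_le_card (fun w hw => by
    simp only [Finset.mem_filter, Finset.mem_univ, true_and] at hw ⊢
    exact h w hw)

/-- union bound -/
theorem union {Ω : Type u} [Fintype Ω] [Nonempty Ω] {I I' : Type u} [Fintype I] [Fintype I']
    (E : I → Ω → Prop) (E' : I' → Ω → Prop) (b b' : ℝ) (hb : ∀ i, pr (E i) ≤ b)
    (hb' : ∀ i, pr (E' i) ≤ b')
    (h : (Fintype.card I : ℝ) * b + (Fintype.card I' : ℝ) * b' < 1) :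
    ∃ w, (∀ i, ¬ E i w) ∧ ∀ i, ¬ E' i w := by
  by_contra hcon
  push Not at hcon
  have hΩ : (0 : ℝ) < (Fintype.card Ω : ℝ) := by exact_mod_cast Fintype.card_pos
  have h1 : (univ : Finset Ω) ⊆ (univ : Finset I).biUnion (fun i => univ.filter (E i)) ∪
      (univ : Finset I').biUnion (fun i => univ.filter (E' i)) := by
    intro w _
    by_cases hw : ∀ i, ¬ E i w
    · obtain ⟨i, hi⟩ := hcon w hw
      exact mem_union_right _ (mem_biUnion.2 ⟨i, mem_univ i, mem_filter.2 ⟨mem_univ w, hi⟩⟩)
    · push Not at hw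
      obtain ⟨i, hi⟩ := hw
      exact mem_union_left _ (mem_biUnion.2 ⟨i, mem_univ i, mem_filter.2 ⟨mem_univ w, hi⟩⟩)
  have h2 := (card_le_card h1).trans ((card_union_le _ _).trans
    (add_le_add card_biUnion_le card_biUnion_le))
  rw [card_univ] at h2
  have h3 : (Fintype.card Ω : ℝ) ≤ ∑ i : I, ((univ.filter (E i)).card : ℝ) +
      ∑ i : I', ((univ.filter (E' i)).card : ℝ) := by exact_mod_cast h2
  have h4 : ∀ i, ((univ.filter (E i)).card : ℝ) ≤ b * Fintype.card Ω := by
    intro i
    have := hb i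
    unfold pr at this
    rwa [div_le_iff₀ hΩ] at this
  have h5 : ∀ i, ((univ.filter (E' i)).card : ℝ) ≤ b' * Fintype.card Ω := by
    intro i
    have := hb' i
    unfold pr at this
    rwa [div_le_iff₀ hΩ] at this
  have h6 : (Fintype.card Ω : ℝ) ≤ ((Fintype.card I : ℝ) * b + (Fintype.card I' : ℝ) * b') *
      Fintype.card Ω := by
    calc (Fintype.card Ω : ℝ) ≤ ∑ _i : I, b * Fintype.card Ω + ∑ _i : I', b' * Fintype.card Ω :=
          h3.trans (add_le_add (Finset.sum_le_sum fun i _ => h4 i)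
            (Finset.sum_le_sum fun i _ => h5 i))
      _ = _ := by
          rw [Finset.sum_const, Finset.sum_const, card_univ, card_univ, nsmul_eq_mul, nsmul_eq_mul]
          ring
  nlinarith

theorem dev {J : Type u} [Fintype J] [DecidableEq J] {K : ℕ} (hK : 0 < K) (Q : Finset J) (c : Fin K)
    (T δ : ℝ) (hT : (Q.card : ℝ) ≤ T) (hδ : 0 < δ) (hδ1 : δ ≤ 1) :
    pr (fun f : J → Fin K =>
      δ * T < |(K : ℝ) * ((Q.filter fun y => f y = c).card : ℝ) - (Q.card : ℝ)|) ≤
      2 * Real.exp (-(δ ^ 2 * T / (4 * K))) := by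
  have hKr : (0 : ℝ) < K := by exact_mod_cast hK
  set x : J → Fin K → ℝ := fun _ c' => if c' = c then 1 else 0 with hx
  have hX : ∀ f : J → Fin K, ∑ y ∈ Q, x y (f y) = ((Q.filter fun y => f y = c).card : ℝ) := by
    intro f
    rw [hx]
    simp
  set S : ℝ := (Q.card : ℝ) / K with hS
  have hS0 : 0 ≤ S := by positivity
  have hST : S ≤ T / K := div_le_div_of_nonneg_right hT hKr.le
  have hSK : ∑ y ∈ Q, ∑ c', x y c' = S * K := by
    rw [hx, hS]
    simp only [Finset.sum_ite_eq', Finset.mem_univ, if_true, Finset.sum_const, nsmul_eq_mul,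
      mul_one]
    field_simp
  have hx01 : ∀ y c', x y c' = 0 ∨ x y c' = 1 := by
    intro y c'
    by_cases h : c' = c
    · right; simp [hx, h]
    · left; simp [hx, h]
  have hT0 : 0 ≤ T := (Nat.cast_nonneg _).trans hT
  have hu := chern hK Q x hx01 S hSK (δ / 2) (S + δ * T / K)
    (by rw [abs_le]; constructor <;> linarith)
  have hl := chern hK Q x hx01 S hSK (-(δ / 2)) (S - δ * T / K)
    (by rw [abs_le]; constructor <;> linarith)
  simp only [hX] at hu hl
  have hu' : Real.exp (S * (δ / 2 + (δ / 2) ^ 2) - δ / 2 * (S + δ * T / K)) ≤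
      Real.exp (-(δ ^ 2 * T / (4 * K))) := by
    apply Real.exp_le_exp.2
    have h1 : S * (δ / 2 + (δ / 2) ^ 2) - δ / 2 * (S + δ * T / K) =
        (δ / 2) ^ 2 * S - δ ^ 2 / 2 * (T / K) := by ring
    have h2 : (δ / 2) ^ 2 * S ≤ (δ / 2) ^ 2 * (T / K) := mul_le_mul_of_nonneg_left hST (by positivity)
    have h3 : -(δ ^ 2 * T / (4 * K)) = (δ / 2) ^ 2 * (T / K) - δ ^ 2 / 2 * (T / K) := by
      field_simp; ring
    rw [h1, h3]
    linarith
  have hl' : Real.exp (S * (-(δ / 2) + (-(δ / 2)) ^ 2) - -(δ / 2) * (S - δ * T / K)) ≤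
      Real.exp (-(δ ^ 2 * T / (4 * K))) := by
    apply Real.exp_le_exp.2
    have h1 : S * (-(δ / 2) + (-(δ / 2)) ^ 2) - -(δ / 2) * (S - δ * T / K) =
        (δ / 2) ^ 2 * S - δ ^ 2 / 2 * (T / K) := by ring
    have h2 : (δ / 2) ^ 2 * S ≤ (δ / 2) ^ 2 * (T / K) := mul_le_mul_of_nonneg_left hST (by positivity)
    have h3 : -(δ ^ 2 * T / (4 * K)) = (δ / 2) ^ 2 * (T / K) - δ ^ 2 / 2 * (T / K) := by
      field_simp; ring
    rw [h1, h3]
    linarith
  refine (pr_le_add (A := fun f : J → Fin K =>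
      δ / 2 * (S + δ * T / K) ≤ δ / 2 * ((Q.filter fun y => f y = c).card : ℝ))
    (B := fun f : J → Fin K =>
      -(δ / 2) * (S - δ * T / K) ≤ -(δ / 2) * ((Q.filter fun y => f y = c).card : ℝ)) ?_).trans ?_
  · intro f hf
    have hSQ : S * K = Q.card := by rw [hS]; field_simp
    have hTK : δ * T / K * K = δ * T := by field_simp
    rcases lt_abs.1 hf with h | h
    · left
      apply mul_le_mul_of_nonneg_left _ (by positivity)
      have h1 : (S + δ * T / K) * K ≤ ((Q.filter fun y => f y = c).card : ℝ) * K := by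
        rw [add_mul, hSQ, hTK]; linarith
      exact le_of_mul_le_mul_right h1 hKr
    · right
      have h1 : ((Q.filter fun y => f y = c).card : ℝ) * K ≤ (S - δ * T / K) * K := by
        rw [sub_mul, hSQ, hTK]; linarith
      have h2 := le_of_mul_le_mul_right h1 hKr
      have h3 : δ / 2 * ((Q.filter fun y => f y = c).card : ℝ) ≤ δ / 2 * (S - δ * T / K) :=
        mul_le_mul_of_nonneg_left h2 (by positivity)
      linarith
  · linarith

/-- sets of ordered pairs on which `p ↦ s(p.1, p.2)` is injective -/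
theorem dev_pairs {V : Type u} [Fintype V] {K : ℕ} (hK : 0 < K) (G : Finset (V × V)) (c : Fin K)
    (hG : Set.InjOn (fun p : V × V => s(p.1, p.2)) (G : Set (V × V)))
    (T δ : ℝ) (hT : (G.card : ℝ) ≤ T) (hδ : 0 < δ) (hδ1 : δ ≤ 1) :
    pr (fun f : Sym2 V → Fin K =>
      δ * T < |(K : ℝ) * ((G.filter fun p => f s(p.1, p.2) = c).card : ℝ) - (G.card : ℝ)|) ≤
      2 * Real.exp (-(δ ^ 2 * T / (4 * K))) := by
  have h1 : (G.image (fun p : V × V => s(p.1, p.2))).card = G.card := card_image_of_injOn hG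
  have h2 : ∀ f : Sym2 V → Fin K,
      ((G.image (fun p : V × V => s(p.1, p.2))).filter fun e => f e = c).card =
      (G.filter fun p => f s(p.1, p.2) = c).card := by
    intro f
    rw [filter_image]
    exact card_image_of_injOn (hG.mono (by
      intro p hp
      exact (mem_filter.1 hp).1))
  have h3 := dev hK (G.image (fun p : V × V => s(p.1, p.2))) c T δ (by rw [h1]; exact hT) hδ hδ1
  simp only [h2, h1] at h3
  exact h3

theorem dev_ee {V : Type u} [Fintype V] (H : SimpleGraph V) {K : ℕ} (hK : 0 < K)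
    (A B : Finset V) (c : Fin K) (δ : ℝ) (hδ : 0 < δ) (hδ1 : δ ≤ 1) :
    pr (fun f : Sym2 V → Fin K => 2 * δ * (Fintype.card V : ℝ) ^ 2 <
      |(K : ℝ) * (((A ×ˢ B).filter fun p => H.Adj p.1 p.2 ∧ f s(p.1, p.2) = c).card : ℝ) -
          (ee H A B : ℝ)|) ≤
      4 * Real.exp (-(δ ^ 2 * (Fintype.card V : ℝ) ^ 2 / (4 * K))) := by
  set m : ℝ := (Fintype.card V : ℝ) with hm
  set eq := Fintype.equivFin V with heq
  set F := (A ×ˢ B).filter fun p : V × V => H.Adj p.1 p.2 with hF
  set F1 := F.filter fun p => eq p.1 < eq p.2 with hF1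
  set F2 := F.filter fun p => ¬ eq p.1 < eq p.2 with hF2
  have hcard : ∀ G : Finset (V × V), (G.card : ℝ) ≤ m ^ 2 := by
    intro G
    have := card_le_univ G
    rw [Fintype.card_prod] at this
    rw [hm, sq]
    exact_mod_cast this
  have hinj1 : Set.InjOn (fun p : V × V => s(p.1, p.2)) (F1 : Set (V × V)) := by
    intro p hp q hq hpq
    have hp' := (mem_filter.1 hp).2
    have hq' := (mem_filter.1 hq).2
    rcases Sym2.eq_iff.1 hpq with ⟨h1, h2⟩ | ⟨h1, h2⟩
    · exact Prod.ext h1 h2
    · rw [h1, h2] at hp'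
      exact absurd hp' (not_lt.2 hq'.le)
  have hinj2 : Set.InjOn (fun p : V × V => s(p.1, p.2)) (F2 : Set (V × V)) := by
    intro p hp q hq hpq
    have hp' := (mem_filter.1 hp).2
    have hq' := (mem_filter.1 hq).2
    have hpa := (mem_filter.1 (mem_filter.1 hp).1).2
    rcases Sym2.eq_iff.1 hpq with ⟨h1, h2⟩ | ⟨h1, h2⟩
    · exact Prod.ext h1 h2
    · exfalso
      rw [h1, h2] at hp'
      have h3 : eq q.1 = eq q.2 := le_antisymm (not_lt.1 hp') (not_lt.1 hq')
      have h4 := eq.injective h3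
      rw [h1, h2, h4] at hpa
      exact H.irrefl hpa
  have h1 := dev_pairs hK F1 c hinj1 (m ^ 2) δ (hcard _) hδ hδ1
  have h2 := dev_pairs hK F2 c hinj2 (m ^ 2) δ (hcard _) hδ hδ1
  refine (pr_le_add (A := fun f : Sym2 V → Fin K =>
      δ * m ^ 2 < |(K : ℝ) * ((F1.filter fun p => f s(p.1, p.2) = c).card : ℝ) - (F1.card : ℝ)|)
    (B := fun f : Sym2 V → Fin K =>
      δ * m ^ 2 < |(K : ℝ) * ((F2.filter fun p => f s(p.1, p.2) = c).card : ℝ) - (F2.card : ℝ)|)
    ?_).trans (by linarith)
  intro f hf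
  by_contra hcon
  push Not at hcon
  have h3 : (((A ×ˢ B).filter fun p => H.Adj p.1 p.2 ∧ f s(p.1, p.2) = c).card : ℝ) =
      ((F1.filter fun p => f s(p.1, p.2) = c).card : ℝ) +
      ((F2.filter fun p => f s(p.1, p.2) = c).card : ℝ) := by
    have h4 : ((A ×ˢ B).filter fun p => H.Adj p.1 p.2 ∧ f s(p.1, p.2) = c) =
        F.filter fun p => f s(p.1, p.2) = c := by
      rw [hF, filter_filter]
    have h5 := card_filter_add_card_filter_not (s := F.filter fun p => f s(p.1, p.2) = c)
      (fun p : V × V => eq p.1 < eq p.2)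
    have h6 : (F.filter fun p => f s(p.1, p.2) = c).filter (fun p : V × V => eq p.1 < eq p.2) =
        F1.filter fun p => f s(p.1, p.2) = c := filter_comm _ _ _
    have h7 : (F.filter fun p => f s(p.1, p.2) = c).filter (fun p : V × V => ¬ eq p.1 < eq p.2) =
        F2.filter fun p => f s(p.1, p.2) = c := filter_comm _ _ _
    rw [h6, h7] at h5
    rw [h4]
    exact_mod_cast h5.symm
  have h8 : (ee H A B : ℝ) = (F1.card : ℝ) + (F2.card : ℝ) := by
    have h5 := card_filter_add_card_filter_not (s := F) (fun p : V × V => eq p.1 < eq p.2)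
    have h6 : ee H A B = F.card := rfl
    rw [h6]
    exact_mod_cast h5.symm
  have h9 := abs_le.1 hcon.1
  have h10 := abs_le.1 hcon.2
  have h11 : |(K : ℝ) * (((A ×ˢ B).filter fun p => H.Adj p.1 p.2 ∧ f s(p.1, p.2) = c).card : ℝ) -
          (ee H A B : ℝ)| ≤ 2 * δ * m ^ 2 := by
    rw [h3, h8, abs_le]
    constructor <;> nlinarith
  exact absurd hf (not_lt.2 h11)

theorem dev_dg {V : Type u} [Fintype V] (H : SimpleGraph V) {K : ℕ} (hK : 0 < K)
    (v : V) (Z : Finset V) (c : Fin K) (δ : ℝ) (hδ : 0 < δ) (hδ1 : δ ≤ 1) :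
    pr (fun f : Sym2 V → Fin K => δ * (Fintype.card V : ℝ) <
      |(K : ℝ) * ((Z.filter fun w => H.Adj v w ∧ f s(v, w) = c).card : ℝ) -
          (dg H v Z : ℝ)|) ≤
      2 * Real.exp (-(δ ^ 2 * (Fintype.card V : ℝ) / (4 * K))) := by
  set G : Finset (V × V) := (Z.filter fun w => H.Adj v w).map ⟨fun w => (v, w), fun a b h => by
    simpa using h⟩ with hG
  have hinj : Set.InjOn (fun p : V × V => s(p.1, p.2)) (G : Set (V × V)) := by
    intro p hp q hq hpq
    rw [hG, mem_coe, mem_map] at hp hq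
    obtain ⟨a, _, rfl⟩ := hp
    obtain ⟨b, _, rfl⟩ := hq
    simp only [Function.Embedding.coeFn_mk] at hpq ⊢
    rcases Sym2.eq_iff.1 hpq with ⟨_, h2⟩ | ⟨h1, h2⟩
    · rw [h2]
    · rw [h2, h1]
  have hc : G.card = dg H v Z := by rw [hG, card_map]; rfl
  have h1 := dev_pairs hK G c hinj (Fintype.card V : ℝ) δ (by
    rw [hc]; exact_mod_cast card_le_univ _) hδ hδ1
  have h2 : ∀ f : Sym2 V → Fin K, (G.filter fun p => f s(p.1, p.2) = c).card =
      (Z.filter fun w => H.Adj v w ∧ f s(v, w) = c).card := by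
    intro f
    rw [hG, filter_map, card_map, filter_filter]
    rfl
  simp only [h2, hc] at h1
  exact h1

end SPLITAux

open SPLITAux

theorem stmt_SPLIT : Stmt_SPLIT.{u} := by
  intro K ι0 hK hι0
  set ι : ℝ := min ι0 1 with hιd
  have hι : 0 < ι := lt_min hι0 one_pos
  have hι1 : ι ≤ 1 := min_le_right _ _
  have hιι : ι ≤ ι0 := min_le_left _ _
  have hKr : (1 : ℝ) ≤ K := by exact_mod_cast hK
  set a : ℝ := (ι / 2) ^ 2 / (4 * K) with ha
  have ha0 : 0 < a := by positivity
  obtain ⟨m0, hm0⟩ := exists_nat_ge (3 / a + 8 * K + 1 + 24 * K / a ^ 3)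
  refine ⟨m0, fun V _ H Zs hm hZ => ?_⟩
  set m : ℝ := (Fintype.card V : ℝ) with hmd
  have hmm : 3 / a + 8 * K + 1 + 24 * K / a ^ 3 ≤ m := by
    have : (m0 : ℝ) ≤ m := by rw [hmd]; exact_mod_cast hm
    linarith
  have h3a : 0 < 3 / a := by positivity
  have h24 : 0 < 24 * K / a ^ 3 := by positivity
  have hm1 : 1 ≤ m := by linarith
  have : Nonempty (Fin K) := ⟨⟨0, hK⟩⟩
  have hmain := union (Ω := Sym2 V → Fin K) (I := Fin K × Finset V × Finset V)
    (I' := Fin K × V × {Z // Z ∈ Zs})
    (fun x f => 2 * (ι / 2) * (Fintype.card V : ℝ) ^ 2 <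
      |(K : ℝ) * (((x.2.1 ×ˢ x.2.2).filter fun p => H.Adj p.1 p.2 ∧ f s(p.1, p.2) = x.1).card : ℝ) -
          (ee H x.2.1 x.2.2 : ℝ)|)
    (fun x f => (ι / 2) * (Fintype.card V : ℝ) <
      |(K : ℝ) * ((x.2.2.1.filter fun w => H.Adj x.2.1 w ∧ f s(x.2.1, w) = x.1).card : ℝ) -
          (dg H x.2.1 x.2.2.1 : ℝ)|)
    (4 * Real.exp (-(a * m ^ 2))) (2 * Real.exp (-(a * m)))
    (by
      intro x
      refine (dev_ee H hK x.2.1 x.2.2 x.1 (ι / 2) (by positivity) (by linarith)).trans (le_of_eq ?_)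
      congr 2
      rw [ha]; ring)
    (by
      intro x
      refine (dev_dg H hK x.2.1 x.2.2.1 x.1 (ι / 2) (by positivity) (by linarith)).trans
        (le_of_eq ?_)
      congr 2
      rw [ha]; ring)
    (by
      have hexp1 : 8 * (K : ℝ) < Real.exp m := by
        have := Real.add_one_le_exp m
        linarith
      have hc1 : ((Fintype.card (Fin K × Finset V × Finset V) : ℕ) : ℝ) * (4 * Real.exp (-(a * m ^ 2))) <
          1 / 2 := by
        have h1 : ((Fintype.card (Fin K × Finset V × Finset V) : ℕ) : ℝ) ≤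
            K * Real.exp (2 * m) := by
          rw [Fintype.card_prod, Fintype.card_prod, Fintype.card_fin, Fintype.card_finset]
          push_cast
          have h2 : (2 : ℝ) ≤ Real.exp 1 := by
            have := Real.add_one_le_exp (1 : ℝ); linarith
          have h3 : (2 : ℝ) ^ Fintype.card V ≤ Real.exp m := by
            calc (2 : ℝ) ^ Fintype.card V ≤ (Real.exp 1) ^ Fintype.card V :=
                  pow_le_pow_left₀ (by norm_num) h2 _
              _ = Real.exp m := by rw [← Real.exp_nat_mul, mul_one]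
          have h4 : Real.exp (2 * m) = Real.exp m * Real.exp m := by
            rw [← Real.exp_add]; ring_nf
          rw [h4]
          gcongr
        have h5 : 3 * m ≤ a * m ^ 2 := by
          have h6 : 3 / a ≤ m := by linarith
          rw [div_le_iff₀ ha0] at h6
          nlinarith
        calc _ ≤ K * Real.exp (2 * m) * (4 * Real.exp (-(a * m ^ 2))) := by gcongr
          _ = 4 * K * Real.exp (2 * m - a * m ^ 2) := by
              rw [sub_eq_add_neg, Real.exp_add]; ring
          _ ≤ 4 * K * Real.exp (-m) := by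
              gcongr
              linarith
          _ < 1 / 2 := by
              rw [Real.exp_neg, ← div_eq_mul_inv, div_lt_iff₀ (Real.exp_pos m)]
              linarith
      have hc2 : ((Fintype.card (Fin K × V × {Z // Z ∈ Zs}) : ℕ) : ℝ) * (2 * Real.exp (-(a * m))) <
          1 / 2 := by
        have h1 : ((Fintype.card (Fin K × V × {Z // Z ∈ Zs}) : ℕ) : ℝ) ≤ K * (m * m) := by
          rw [Fintype.card_prod, Fintype.card_prod, Fintype.card_fin, Fintype.card_coe]
          push_cast
          have : (Zs.card : ℝ) ≤ m := by rw [hmd]; exact_mod_cast hZ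
          gcongr
        have h2 : (a * m) ^ 3 / 6 ≤ Real.exp (a * m) := by
          have := Real.pow_div_factorial_le_exp (a * m) (by positivity) 3
          simpa [Nat.factorial] using this
        have h3 : 24 * K < a ^ 3 * m := by
          have h4 : 24 * K / a ^ 3 < m := by linarith
          rw [div_lt_iff₀ (by positivity)] at h4
          linarith
        calc _ ≤ K * (m * m) * (2 * Real.exp (-(a * m))) := by gcongr
          _ < 1 / 2 := by
              rw [Real.exp_neg, ← mul_assoc, ← div_eq_mul_inv, div_lt_iff₀ (Real.exp_pos _)]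
              have h5 : K * (m * m) * 2 < 1 / 2 * ((a * m) ^ 3 / 6) := by
                have h6 : 24 * K * (m * m) < a ^ 3 * m * (m * m) :=
                  mul_lt_mul_of_pos_right h3 (by positivity)
                have h7 : (a * m) ^ 3 = a ^ 3 * m * (m * m) := by ring
                rw [h7]
                linarith
              linarith
      rw [hmd] at *
      linarith)
  obtain ⟨lab, h1, h2⟩ := hmain
  refine ⟨lab, fun c A B => ?_, fun c v Z hZZ => ?_⟩
  · have h3 := not_lt.1 (h1 (c, A, B))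
    simp only at h3
    refine h3.trans ?_
    have : 0 ≤ m ^ 2 := by positivity
    rw [← hmd]
    nlinarith
  · have h3 := not_lt.1 (h2 (c, v, ⟨Z, hZZ⟩))
    simp only at h3
    refine h3.trans ?_
    rw [← hmd]
    nlinarith

end Pool.Agent.Work.MP_db9399_da_helper73
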