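import Mathlib
import Pool.Agent.Work.MP_db9399_da_helper72.Stm

/-!
# Cuts of a part extend to the whole graph (helper73)
-/

set_option autoImplicit false

namespace Pool.Agent.Work.MP_db9399_da_helper73

open Finset Classical
open Pool.Agent.Work.MP_db9399_da_helper72 (ee dg Stmt_WR Stmt_PCUT)

universe u

namespace PCUTAux

variable {V : Type u} [Fintype V]

/-- number of elements of the class `i` in `X` -/
noncomputable def cnt {M : ℕ} (cl : V → Fin M) (X : Finset V) (i : Fin M) : ℝ :=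
  ((X.filter fun v => cl v = i).card : ℝ)

lemma cnt_nonneg {M : ℕ} (cl : V → Fin M) (X : Finset V) (i : Fin M) : 0 ≤ cnt cl X i := by
  unfold cnt; positivity

lemma sum_cnt {M : ℕ} (cl : V → Fin M) (X : Finset V) : ∑ i, cnt cl X i = (X.card : ℝ) := by
  unfold cnt
  have := Finset.card_eq_sum_card_fiberwise (s := X) (f := cl) (t := (univ : Finset (Fin M)))
    (by intro x _; simp)
  rw [this]
  push_cast
  rfl

lemma card_le_m (X : Finset V) : (X.card : ℝ) ≤ (Fintype.card V : ℝ) := by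
  exact_mod_cast card_le_univ X

/-- choice of the large set -/
lemma choose {M : ℕ} (cl : V → Fin M) {lam ι : ℝ} (hl : 0 < lam) (hl1 : lam ≤ 1)
    (P P' A : Finset V) (hA : A ⊆ P')
    (h : ∀ i, |cnt cl P' i - lam * cnt cl P i| ≤ ι * (Fintype.card V : ℝ)) :
    ∃ A1 : Finset V, A1 ⊆ P ∧ ∀ i,
      |lam * cnt cl A1 i - cnt cl A i| ≤ 2 * ι * (Fintype.card V : ℝ) + 1 ∧
      |lam * cnt cl (P \ A1) i - cnt cl (P' \ A) i| ≤ 2 * ι * (Fintype.card V : ℝ) + 1 := by
  set m : ℝ := (Fintype.card V : ℝ) with hm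
  have hex : ∀ i : Fin M, ∃ T : Finset V, T ⊆ P.filter (fun v => cl v = i) ∧
      T.card = min (⌊cnt cl A i / lam⌋₊) (P.filter fun v => cl v = i).card := fun i =>
    exists_subset_card_eq (min_le_right _ _)
  choose T hT hTc using hex
  set A1 : Finset V := univ.biUnion T with hA1
  have hA1P : A1 ⊆ P := by
    intro v hv
    rw [hA1, mem_biUnion] at hv
    obtain ⟨i, _, hi⟩ := hv
    exact (mem_filter.1 (hT i hi)).1
  have hA1i : ∀ i, A1.filter (fun v => cl v = i) = T i := by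
    intro i
    ext v
    rw [mem_filter, hA1, mem_biUnion]
    constructor
    · rintro ⟨⟨j, _, hj⟩, hv⟩
      have := (mem_filter.1 (hT j hj)).2
      rw [← hv, this]
      exact hj
    · intro hv
      exact ⟨⟨i, mem_univ i, hv⟩, (mem_filter.1 (hT i hv)).2⟩
  refine ⟨A1, hA1P, fun i => ?_⟩
  have h1 : cnt cl A1 i = min ((⌊cnt cl A i / lam⌋₊ : ℕ) : ℝ) (cnt cl P i) := by
    unfold cnt
    rw [hA1i i, hTc i]
    push_cast
    rfl
  have h2 : cnt cl (P \ A1) i = cnt cl P i - cnt cl A1 i := by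
    unfold cnt
    have h3 : (P \ A1).filter (fun v => cl v = i) =
        P.filter (fun v => cl v = i) \ A1.filter (fun v => cl v = i) := by
      ext v; simp only [mem_filter, mem_sdiff]; tauto
    rw [h3, card_sdiff_of_subset (filter_subset_filter _ hA1P),
      Nat.cast_sub (card_le_card (filter_subset_filter _ hA1P))]
  have h4 : cnt cl (P' \ A) i = cnt cl P' i - cnt cl A i := by
    unfold cnt
    have h3 : (P' \ A).filter (fun v => cl v = i) =
        P'.filter (fun v => cl v = i) \ A.filter (fun v => cl v = i) := by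
      ext v; simp only [mem_filter, mem_sdiff]; tauto
    rw [h3, card_sdiff_of_subset (filter_subset_filter _ hA),
      Nat.cast_sub (card_le_card (filter_subset_filter _ hA))]
  have h5 : cnt cl A i ≤ cnt cl P' i := by
    unfold cnt
    exact_mod_cast card_le_card (filter_subset_filter _ hA)
  have h6 := cnt_nonneg cl A i
  have h7 := cnt_nonneg cl P i
  have h8 := abs_le.1 (h i)
  have h9 : ((⌊cnt cl A i / lam⌋₊ : ℕ) : ℝ) ≤ cnt cl A i / lam := Nat.floor_le (by positivity)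
  have h10 : cnt cl A i / lam < ((⌊cnt cl A i / lam⌋₊ : ℕ) : ℝ) + 1 := Nat.lt_floor_add_one _
  have h11 : lam * (cnt cl A i / lam) = cnt cl A i := by field_simp
  have h12 : lam * ((⌊cnt cl A i / lam⌋₊ : ℕ) : ℝ) ≤ cnt cl A i := by
    calc _ ≤ lam * (cnt cl A i / lam) := mul_le_mul_of_nonneg_left h9 hl.le
      _ = _ := h11
  have h13 : cnt cl A i ≤ lam * ((⌊cnt cl A i / lam⌋₊ : ℕ) : ℝ) + 1 := by
    have := mul_le_mul_of_nonneg_left h10.le hl.le
    rw [h11] at this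
    nlinarith
  have h14 : 0 ≤ ι * m := (abs_nonneg _).trans (h i)
  have key : |lam * cnt cl A1 i - cnt cl A i| ≤ ι * m + 1 := by
    rw [h1]
    rcases le_total ((⌊cnt cl A i / lam⌋₊ : ℕ) : ℝ) (cnt cl P i) with hc | hc
    · rw [min_eq_left hc, abs_le]
      constructor <;> linarith
    · rw [min_eq_right hc, abs_le]
      have h15 : lam * cnt cl P i ≤ lam * ((⌊cnt cl A i / lam⌋₊ : ℕ) : ℝ) :=
        mul_le_mul_of_nonneg_left hc hl.le
      constructor <;> linarith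
  have key' := abs_le.1 key
  constructor
  · exact key.trans (by linarith)
  · rw [h2, h4, abs_le]
    have h16 : lam * (cnt cl P i - cnt cl A1 i) = lam * cnt cl P i - lam * cnt cl A1 i := by ring
    rw [h16]
    constructor <;> linarith

lemma abs_sub_le {x y x' y' : ℝ} (hy : 0 ≤ y) (hx' : 0 ≤ x') :
    x * y - x' * y' ≤ |x - x'| * y + x' * |y - y'| := by
  have h1 : x * y - x' * y' = (x - x') * y + x' * (y - y') := by ring
  rw [h1]
  have h2 : (x - x') * y ≤ |x - x'| * y := mul_le_mul_of_nonneg_right (le_abs_self _) hy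
  have h3 : x' * (y - y') ≤ x' * |y - y'| := mul_le_mul_of_nonneg_left (le_abs_self _) hx'
  linarith

lemma trans {M : ℕ} (H : SimpleGraph V) (cl : V → Fin M) (dd : Fin M → Fin M → ℝ)
    (hd : ∀ i j, 0 ≤ dd i j ∧ dd i j ≤ 1) {ι1 lam δ : ℝ} (hι1 : 0 ≤ ι1) (hl : 0 < lam)
    (hl1 : lam ≤ 1) (hδ : 0 ≤ δ)
    (hW : ∀ A B : Finset V,
        |(ee H A B : ℝ) - ∑ i, ∑ j, dd i j * ((A.filter fun v => cl v = i).card : ℝ) *
          ((B.filter fun v => cl v = j).card : ℝ)| ≤ ι1 * (Fintype.card V : ℝ) ^ 2)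
    (X Y X' Y' : Finset V) (hX : ∀ i, |lam * cnt cl X i - cnt cl X' i| ≤ δ)
    (hY : ∀ i, |lam * cnt cl Y i - cnt cl Y' i| ≤ δ) :
    lam ^ 2 * (ee H X Y : ℝ) ≤ (ee H X' Y' : ℝ) + 2 * ι1 * (Fintype.card V : ℝ) ^ 2 +
      2 * M * δ * (Fintype.card V : ℝ) := by
  set m : ℝ := (Fintype.card V : ℝ) with hm
  have hm0 : 0 ≤ m := by positivity
  have h1 := (abs_le.1 (hW X Y)).2
  have h2 := (abs_le.1 (hW X' Y')).1
  have h3 : lam ^ 2 * (∑ i, ∑ j, dd i j * cnt cl X i * cnt cl Y j) -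
      ∑ i, ∑ j, dd i j * cnt cl X' i * cnt cl Y' j ≤ 2 * M * δ * m := by
    have h4 : lam ^ 2 * (∑ i, ∑ j, dd i j * cnt cl X i * cnt cl Y j) -
      ∑ i, ∑ j, dd i j * cnt cl X' i * cnt cl Y' j =
      ∑ i, ∑ j, dd i j * ((lam * cnt cl X i) * (lam * cnt cl Y j) - cnt cl X' i * cnt cl Y' j) := by
      rw [Finset.mul_sum, ← Finset.sum_sub_distrib]
      refine Finset.sum_congr rfl fun i _ => ?_
      rw [Finset.mul_sum, ← Finset.sum_sub_distrib]
      refine Finset.sum_congr rfl fun j _ => ?_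
      ring
    rw [h4]
    have h5 : ∀ i j, dd i j * ((lam * cnt cl X i) * (lam * cnt cl Y j) - cnt cl X' i * cnt cl Y' j) ≤
        δ * cnt cl Y j + cnt cl X' i * δ := by
      intro i j
      have h6 := abs_sub_le (x := lam * cnt cl X i) (y := lam * cnt cl Y j) (x' := cnt cl X' i)
        (y' := cnt cl Y' j) (mul_nonneg hl.le (cnt_nonneg _ _ _)) (cnt_nonneg _ _ _)
      have h7 : |lam * cnt cl X i - cnt cl X' i| * (lam * cnt cl Y j) ≤ δ * cnt cl Y j := by
        apply mul_le_mul (hX i) _ (mul_nonneg hl.le (cnt_nonneg _ _ _)) hδ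
        exact mul_le_of_le_one_left (cnt_nonneg _ _ _) hl1
      have h8 : cnt cl X' i * |lam * cnt cl Y j - cnt cl Y' j| ≤ cnt cl X' i * δ :=
        mul_le_mul_of_nonneg_left (hY j) (cnt_nonneg _ _ _)
      have h9 : (lam * cnt cl X i) * (lam * cnt cl Y j) - cnt cl X' i * cnt cl Y' j ≤
          δ * cnt cl Y j + cnt cl X' i * δ := by linarith
      have h10 : 0 ≤ δ * cnt cl Y j + cnt cl X' i * δ :=
        add_nonneg (mul_nonneg hδ (cnt_nonneg _ _ _)) (mul_nonneg (cnt_nonneg _ _ _) hδ)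
      obtain ⟨hd0, hd1⟩ := hd i j
      rcases le_total 0 ((lam * cnt cl X i) * (lam * cnt cl Y j) - cnt cl X' i * cnt cl Y' j) with hs | hs
      · exact (mul_le_of_le_one_left hs hd1).trans h9
      · exact (mul_nonpos_of_nonneg_of_nonpos hd0 hs).trans h10
    calc _ ≤ ∑ i : Fin M, ∑ j : Fin M, (δ * cnt cl Y j + cnt cl X' i * δ) :=
          Finset.sum_le_sum fun i _ => Finset.sum_le_sum fun j _ => h5 i j
      _ = M * δ * (Y.card : ℝ) + M * δ * (X'.card : ℝ) := by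
          simp only [Finset.sum_add_distrib, ← Finset.mul_sum, sum_cnt, Finset.sum_const,
            Finset.card_univ, Fintype.card_fin, nsmul_eq_mul, ← Finset.sum_mul]
          ring
      _ ≤ M * δ * m + M * δ * m := by
          have := card_le_m Y
          have := card_le_m X'
          gcongr
      _ = 2 * M * δ * m := by ring
  have h11 : (ee H X Y : ℝ) ≤ (∑ i, ∑ j, dd i j * cnt cl X i * cnt cl Y j) + ι1 * m ^ 2 := by
    unfold cnt; linarith
  have h12 : (∑ i, ∑ j, dd i j * cnt cl X' i * cnt cl Y' j) ≤ (ee H X' Y' : ℝ) + ι1 * m ^ 2 := by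
    unfold cnt; linarith
  have h13 : lam ^ 2 ≤ 1 := by nlinarith
  have h14 : lam ^ 2 * (ee H X Y : ℝ) ≤ lam ^ 2 * (∑ i, ∑ j, dd i j * cnt cl X i * cnt cl Y j) +
      ι1 * m ^ 2 := by
    have h15 := mul_le_mul_of_nonneg_left h11 (by positivity : (0 : ℝ) ≤ lam ^ 2)
    have h16 : lam ^ 2 * (ι1 * m ^ 2) ≤ ι1 * m ^ 2 := mul_le_of_le_one_left (by positivity) h13
    rw [mul_add] at h15
    linarith
  linarith

lemma card_close {M : ℕ} (cl : V → Fin M) {lam δ : ℝ} (X X' : Finset V)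
    (hX : ∀ i, |lam * cnt cl X i - cnt cl X' i| ≤ δ) :
    |lam * (X.card : ℝ) - (X'.card : ℝ)| ≤ M * δ := by
  rw [← sum_cnt cl X, ← sum_cnt cl X', Finset.mul_sum, ← Finset.sum_sub_distrib]
  refine (Finset.abs_sum_le_sum_abs _ _).trans ?_
  calc _ ≤ ∑ _i : Fin M, δ := Finset.sum_le_sum fun i _ => hX i
    _ = M * δ := by simp

end PCUTAux

open PCUTAux

theorem stmt_PCUT (hWR : Stmt_WR.{u}) : Stmt_PCUT.{u} := by
  intro ξ lam hξ hl hl1
  obtain ⟨M, m0, hM⟩ := hWR (ξ / 8) (by positivity)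
  set ι : ℝ := ξ / (16 * (M + 1)) with hιd
  have hι : 0 < ι := by positivity
  obtain ⟨m1, hm1⟩ := exists_nat_ge (8 * (M : ℝ) / ξ)
  refine ⟨M, max m0 m1, ι, hι, fun V _ H hm => ?_⟩
  obtain ⟨cl, dd, hd, hW⟩ := hM V H ((le_max_left _ _).trans hm)
  refine ⟨cl, fun P Q P' Q' hP hQ hPc hQc A B hA hB => ?_⟩
  set m : ℝ := (Fintype.card V : ℝ) with hmd
  have hm0 : (0 : ℝ) ≤ m := by positivity
  have hmm : 8 * (M : ℝ) / ξ ≤ m := by
    have h1 : (m1 : ℝ) ≤ m := by
      rw [hmd]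
      exact_mod_cast (le_max_right _ _).trans hm
    linarith
  have hMm : (M : ℝ) ≤ ξ / 8 * m := by
    have h1 := mul_le_mul_of_nonneg_left hmm (by positivity : (0 : ℝ) ≤ ξ / 8)
    have h2 : ξ / 8 * (8 * (M : ℝ) / ξ) = M := by field_simp
    rwa [h2] at h1
  have hMι : (M : ℝ) * ι ≤ ξ / 16 := by
    rw [hιd]
    have h1 : (M : ℝ) * (ξ / (16 * (M + 1))) = ξ / 16 * (M / (M + 1)) := by
      field_simp
    rw [h1]
    have h2 : (M : ℝ) / (M + 1) ≤ 1 := by
      rw [div_le_one (by positivity)]; linarith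
    have h3 : (0 : ℝ) ≤ ξ / 16 := by positivity
    nlinarith
  obtain ⟨A1, hA1, hAc⟩ := choose cl hl hl1 P P' A hA hPc
  obtain ⟨B1, hB1, hBc⟩ := choose cl hl hl1 Q Q' B hB hQc
  have hδ : 0 ≤ 2 * ι * m + 1 := by positivity
  have hMδ : (M : ℝ) * (2 * ι * m + 1) ≤ ξ * m := by
    have h1 : (M : ℝ) * (2 * ι * m + 1) = 2 * (M * ι) * m + M := by ring
    have h2 : (M * ι) * m ≤ ξ / 16 * m := mul_le_mul_of_nonneg_right hMι hm0
    have h3 : 0 ≤ ξ * m := by positivity
    rw [h1]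
    linarith
  have hfin : 2 * (ξ / 8) * m ^ 2 + 2 * M * (2 * ι * m + 1) * m ≤ ξ * m ^ 2 := by
    have h1 : 2 * M * (2 * ι * m + 1) * m = 4 * (M * ι) * m ^ 2 + 2 * (M * m) := by ring
    have h2 : (M * ι) * m ^ 2 ≤ ξ / 16 * m ^ 2 := mul_le_mul_of_nonneg_right hMι (by positivity)
    have h3 : (M : ℝ) * m ≤ ξ / 8 * m * m := mul_le_mul_of_nonneg_right hMm hm0
    have h4 : ξ / 8 * m * m = ξ / 8 * m ^ 2 := by ring
    have h5 : 0 ≤ ξ * m ^ 2 := by positivity
    rw [h1]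
    linarith
  refine ⟨A1, B1, hA1, hB1, ?_, ?_, ?_, ?_, ?_, ?_⟩
  · exact (card_close cl A1 A fun i => (hAc i).1).trans hMδ
  · exact (card_close cl (P \ A1) (P' \ A) fun i => (hAc i).2).trans hMδ
  · exact (card_close cl B1 B fun i => (hBc i).1).trans hMδ
  · exact (card_close cl (Q \ B1) (Q' \ B) fun i => (hBc i).2).trans hMδ
  · have h1 := trans H cl dd hd (by positivity) hl hl1 hδ hW A1 (Q \ B1) A (Q' \ B)
      (fun i => (hAc i).1) (fun i => (hBc i).2)
    linarith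
  · have h1 := trans H cl dd hd (by positivity) hl hl1 hδ hW B1 (P \ A1) B (P' \ A)
      (fun i => (hBc i).1) (fun i => (hAc i).2)
    linarith

end Pool.Agent.Work.MP_db9399_da_helper73
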